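import Pool.Agent.H46.LSH.Num
import Pool.Agent.H12.LSH.Obj

/-!
# The levels of the places
-/

set_option autoImplicit false

namespace Pool.LSH

open Finset
open Pool.Agent.H49.Ent Pool.Agent.H32.Dense Pool.STK Pool.STAT Pool.MIC Pool.MicA

/-- The places: `o = (i, j)`. -/
def plc {k : ℕ} (i j be : ℕ) (co al : Fin k → ℕ) : Pls k :=
  ⟨(i, j), fun r => (i + al r, j - be), co⟩

/-- The order of two levels. -/
theorem lvl_le {D : NDat2} {n K J a₀ w₀ z M : ℕ} {lam gam : ℕ → ℝ} {κ C₁ : ℝ} {q : D.Ω → ℝ}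
    (hO : D.Ok2 n K J a₀ w₀ z M lam gam κ C₁ q) {i j i' j' l : ℕ} {x : ℝ} (hi : i ≤ M)
    (hj : j ≤ M) (hi' : i' ≤ M) (hj' : j' ≤ M) (l1 : 1 ≤ l) (l2 : l ≤ n)
    (h : lam l * i + gam l * j + x + 2 * C₁ ≤ lam l * i' + gam l * j') :
    (D.g i j l : ℝ) + x * z ≤ D.g i' j' l := by
  have h1 := abs_le.1 (hO.hom i hi j hj l l1 l2)
  have h2 := abs_le.1 (hO.hom i' hi' j' hj' l l1 l2)
  have hz : (0 : ℝ) ≤ z := Nat.cast_nonneg z
  have h3 := mul_le_mul_of_nonneg_right h hz
  have e1 : (lam l * i + gam l * j + x + 2 * C₁) * z =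
      (lam l * i + gam l * j) * z + x * z + 2 * C₁ * z := by ring
  rw [e1] at h3
  linarith [h1.1, h1.2, h2.1, h2.2]

/-- The requirements on `W` for `U` steps. -/
structure WOk (n : ℕ) (lam : ℕ → ℝ) (C₁ : ℝ) (cN U W : ℕ) : Prop where
  win : U + cN + 1 ≤ W
  C : 2 * C₁ + 1 ≤ W
  hor : ∀ l, 1 ≤ l → l ≤ n → U + 2 * C₁ ≤ lam l * W

theorem WOk.mono {n : ℕ} {lam : ℕ → ℝ} {C₁ : ℝ} {cN U W W' : ℕ} (h : WOk n lam C₁ cN U W)
    (hl : ∀ l, 0 < lam l) (hW : W ≤ W') : WOk n lam C₁ cN U W' := by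
  have hW' : (W : ℝ) ≤ W' := by exact_mod_cast hW
  exact ⟨h.win.trans hW, h.C.trans hW', fun l l1 l2 =>
    (h.hor l l1 l2).trans (mul_le_mul_of_nonneg_left hW' (hl l).le)⟩

/-- Large `W` is good. -/
theorem exists_wok (n : ℕ) (lam : ℕ → ℝ) (hl : ∀ l, 0 < lam l) (C₁ : ℝ) (cN U : ℕ) :
    ∃ W : ℕ, WOk n lam C₁ cN U W := by
  obtain ⟨lm, hlm, hlm1⟩ := exists_pos_lb (range (n + 1)) lam
  obtain ⟨x, hx⟩ := exists_nat_ge ((U + 2 * |C₁|) / lm)
  obtain ⟨y, hy⟩ := exists_nat_ge (2 * C₁ + 1)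
  refine ⟨x + y + (U + cN + 1), ⟨by omega, ?_, fun l l1 l2 => ?_⟩⟩
  · push_cast
    have : (0 : ℝ) ≤ x := Nat.cast_nonneg _
    have : (0 : ℝ) ≤ U := Nat.cast_nonneg _
    have : (0 : ℝ) ≤ cN := Nat.cast_nonneg _
    linarith
  · have h1 := hlm1 l (by simp; omega) (hl l)
    rw [div_le_iff₀ hlm] at hx
    have h2 : (x : ℝ) ≤ ((x + y + (U + cN + 1) : ℕ) : ℝ) := by
      exact_mod_cast (by omega : x ≤ x + y + (U + cN + 1))
    calc (U : ℝ) + 2 * C₁ ≤ U + 2 * |C₁| := by linarith [le_abs_self C₁]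
      _ ≤ x * lm := hx
      _ ≤ ((x + y + (U + cN + 1) : ℕ) : ℝ) * lam l :=
        mul_le_mul h2 h1 hlm.le (Nat.cast_nonneg _)
      _ = _ := by ring

section

variable {D : NDat2} {n K J a₀ w₀ z M : ℕ} {lam gam : ℕ → ℝ} {κ C₁ c : ℝ} {q : D.Ω → ℝ}
  {U W be cN : ℕ} {co al : Fin (n - 1) → ℕ} {an i j : ℕ}

theorem al_le_an (hP : PlN n lam gam (2 * C₁ + 1) c W be co al an) (r : Fin (n - 1)) :
    al r + W ≤ an := hP.gapn r

/-- **The levels of the places.** -/
theorem plc_of (hO : D.Ok2 n K J a₀ w₀ z M lam gam κ C₁ q) (hC₁ : 0 ≤ C₁)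
    (hl : ∀ l, 0 < lam l)
    (hP : PlN n lam gam (2 * C₁ + 1) c W be co al an) (hW : WOk n lam C₁ cN U W)
    (hc : c + 2 * C₁ ≤ cN) (hi : i + an < M) (hj : j < M) (hb : be ≤ j) :
    Plc D n z (U * z) cN M (plc i j be co al) := by
  have hz : (0 : ℝ) ≤ z := Nat.cast_nonneg z
  have hbe : ((j - be : ℕ) : ℝ) = j - be := Nat.cast_sub hb
  have hUbe : U + 1 ≤ be := by
    have := hW.win
    have := hP.W_be
    omega
  have hal : ∀ r, i + al r ≤ M := fun r => by
    have := hP.gapn r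
    omega
  have hrk : ∀ l, 1 ≤ l → l < n → (plc i j be co al).rk l < n - 1 := fun l l1 l2 =>
    rk_all (π := plc i j be co al) hP.inj hP.co_ge hP.co_lt l1 l2
  have hcs : ∀ l, 1 ≤ l → l < n → ∃ s : Fin (n - 1), co s = l ∧
      (plc i j be co al).rk l = s := fun l l1 l2 => of_rk (hrk l l1 l2)
  -- the differences of the levels
  have key : ∀ (r : Fin (n - 1)) (l : ℕ) (x : ℝ), 1 ≤ l → l < n →
      x + 2 * C₁ ≤ lam l * al r - gam l * be →
      (D.g i j l : ℝ) + x * z ≤ D.g (i + al r) (j - be) l := by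
    intro r l x l1 l2 h
    refine lvl_le hO (by omega) hj.le (hal r) (by omega) l1 l2.le ?_
    rw [hbe]
    push_cast
    nlinarith
  have key' : ∀ (r : Fin (n - 1)) (l : ℕ) (x : ℝ), 1 ≤ l → l < n →
      lam l * al r - gam l * be + 2 * C₁ ≤ x →
      (D.g (i + al r) (j - be) l : ℝ) ≤ D.g i j l + x * z := by
    intro r l x l1 l2 h
    have h1 := lvl_le hO (x := -x) (hal r) (by omega) (by omega) hj.le l1 l2.le
      (i := i + al r) (j := j - be) (i' := i) (j' := j) (by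
        rw [hbe]
        push_cast
        nlinarith)
    linarith
  have hW1 : 2 * C₁ + 1 ≤ W := hW.C
  have hnat : ∀ {a b x : ℕ}, (a : ℝ) + (x : ℝ) * z ≤ b → a + x * z ≤ b := fun h => by
    exact_mod_cast h
  have hnat' : ∀ {a b x : ℕ}, (a : ℝ) ≤ b + (x : ℝ) * z → a ≤ b + x * z := fun h => by
    exact_mod_cast h
  have hdeep1 : ∀ (r : Fin (n - 1)) l, 1 ≤ l → l < n → (plc i j be co al).rk l ≤ r →
      D.g i j l + 1 * z ≤ D.g (i + al r) (j - be) l := by
    intro r l l1 l2 hr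
    obtain ⟨s, hs, hs2⟩ := hcs l l1 l2
    have hsr : s ≤ r := by
      rw [hs2] at hr
      exact hr
    refine hnat ?_
    push_cast
    rcases (hP.mono hsr).lt_or_eq with h | h
    · have h2 := hP.nar r s h
      rw [hs] at h2
      exact key r l 1 l1 l2 (by linarith)
    · have h2 := (hP.own r s h.symm).1
      rw [hs] at h2
      exact key r l 1 l1 l2 (by linarith)
  refine
  { co_ge := hP.co_ge
    co_lt := hP.co_lt
    inj := hP.inj
    o_lt := ⟨by show i < M; omega, hj⟩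
    p_lt := fun r => by
      have := hP.gapn r
      show i + al r < M
      omega
    win := fun r => ?_
    same := fun r s => rfl
    deep := fun r l l1 l2 hr => ?_
    wide := fun r l l1 l2 hr => ?_
    self := fun r => ?_
    drop := fun r s hrs => ?_ }
  · show (j - be) * z + U * z + z ≤ j * z
    have h1 : (j - be) * z + U * z + z = (j - be + U + 1) * z := by ring
    rw [h1]
    exact Nat.mul_le_mul_right z (by omega)
  · have h1 := hdeep1 r l l1 l2 hr
    show D.g i j l ≤ D.g (i + al r) (j - be) l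
    omega
  · obtain ⟨s, hs, hs2⟩ := hcs l l1 l2
    have hsr : r < s := by
      rw [hs2] at hr
      exact hr
    show D.g (i + al r) (j - be) l ≤ D.g i j l + cN * z
    refine hnat' ?_
    refine key' r l cN l1 l2 ?_
    rcases (hP.mono hsr.le).lt_or_eq with h | h
    · have h2 := hP.wid r s h
      rw [hs] at h2
      have : (0 : ℝ) ≤ cN := Nat.cast_nonneg _
      linarith
    · have h2 := (hP.own r s h).2
      rw [hs] at h2
      linarith
  · have l1 := hP.co_ge r
    have l2 := hP.co_lt r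
    have h1 := hdeep1 r (co r) l1 l2 (rk_co (π := plc i j be co al) hP.inj r).le
    constructor
    · show D.g i j (co r) + z ≤ D.g (i + al r) (j - be) (co r)
      omega
    · show D.g (i + al r) (j - be) (co r) ≤ D.g i j (co r) + cN * z
      refine hnat' (key' r (co r) cN l1 l2 ?_)
      have h2 := (hP.own r r rfl).2
      linarith
  · rcases (hP.mono hrs).lt_or_eq with h | h
    · right
      intro l l1 l2
      show D.g (i + al r) (j - be) l + U * z ≤ D.g (i + al s) (j - be) l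
      refine hnat (lvl_le hO (hal r) (by omega) (hal s) (by omega) l1 l2.le ?_)
      have h3 : ((al r + W : ℕ) : ℝ) ≤ al s := by exact_mod_cast hP.gap r s h
      have h4 := hW.hor l l1 l2.le
      have h5 := mul_le_mul_of_nonneg_left h3 (hl l).le
      push_cast at h5 ⊢
      nlinarith
    · left
      show ((i + al r, j - be) : ℕ × ℕ) = (i + al s, j - be)
      rw [h]

/-- **The place of the target.** -/
theorem pln_of (hO : D.Ok2 n K J a₀ w₀ z M lam gam κ C₁ q) (hn : 1 ≤ n) (hC₁ : 0 ≤ C₁)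
    (hP : PlN n lam gam (2 * C₁ + 1) c W be co al an) (hW : WOk n lam C₁ cN U W)
    (hc : c + 2 * C₁ ≤ cN) (hi : i + an < M) (hj : j < M) (hb : be ≤ j) :
    Pln D n z (U * z) cN M (plc i j be co al) (i + an, j - be) := by
  have hz : (0 : ℝ) ≤ z := Nat.cast_nonneg z
  have hbe : ((j - be : ℕ) : ℝ) = j - be := Nat.cast_sub hb
  have hUbe : U + cN + 1 ≤ be := hW.win.trans hP.W_be
  have hrk : ∀ l, 1 ≤ l → l < n → (plc i j be co al).rk l < n - 1 := fun l l1 l2 =>
    rk_all (π := plc i j be co al) hP.inj hP.co_ge hP.co_lt l1 l2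
  have hcs : ∀ l, 1 ≤ l → l < n → ∃ s : Fin (n - 1), co s = l ∧
      (plc i j be co al).rk l = s := fun l l1 l2 => of_rk (hrk l l1 l2)
  have hW1 : 2 * C₁ + 1 ≤ W := hW.C
  refine
  { a_lt := hi
    win := ?_
    deep := fun l l1 l2 _ => ?_
    wide := fun l l1 l2 h => absurd (hrk l l1 l2) h
    tgt := ⟨?_, ?_⟩ }
  · show (j - be) * z + U * z + cN * z + z ≤ j * z
    have h1 : (j - be) * z + U * z + cN * z + z = (j - be + U + cN + 1) * z := by ring
    rw [h1]
    exact Nat.mul_le_mul_right z (by omega)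
  · obtain ⟨s, hs, -⟩ := hcs l l1 l2
    have h2 := hP.narn s
    rw [hs] at h2
    have h3 := lvl_le hO (x := 0) (by omega) hj.le hi.le (by omega) l1 l2.le
      (i := i) (j := j) (i' := i + an) (j' := j - be) (by
        rw [hbe]
        push_cast
        nlinarith)
    show D.g i j l ≤ D.g (i + an) (j - be) l
    have h4 : (D.g i j l : ℝ) ≤ D.g (i + an) (j - be) l := by linarith
    exact_mod_cast h4
  · have h2 := hP.tgt
    have h3 := lvl_le hO (x := 0) hi.le (by omega) (by omega) hj.le hn le_rfl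
      (i := i + an) (j := j - be) (i' := i) (j' := j) (by
        rw [hbe]
        push_cast
        nlinarith)
    show D.g (i + an) (j - be) n ≤ D.g i j n
    have h4 : (D.g (i + an) (j - be) n : ℝ) ≤ D.g i j n := by linarith
    exact_mod_cast h4
  · have h2 := hP.tgt'
    have h3 := lvl_le hO (x := -(cN : ℝ)) (by omega) hj.le hi.le (by omega) hn le_rfl
      (i := i) (j := j) (i' := i + an) (j' := j - be) (by
        rw [hbe]
        push_cast
        nlinarith)
    show D.g i j n ≤ D.g (i + an) (j - be) n + cN * z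
    have h4 : (D.g i j n : ℝ) ≤ D.g (i + an) (j - be) n + cN * z := by linarith
    exact_mod_cast h4

/-- The own pair: the base is fat. -/
theorem own_fat (hO : D.Ok2 n K J a₀ w₀ z M lam gam κ C₁ q)
    (hP : PlN n lam gam (2 * C₁ + 1) c W be co al an) (hW : WOk n lam C₁ cN U W) {S' : ℕ}
    (hS : 1 ≤ S') (hi : S' * an ≤ i) (hi2 : i ≤ M) (hj : j + S' * be ≤ M) :
    Fat D n i j (i - S' * an) (j + S' * be) := by
  intro l l1 l2
  have hS1 : (1 : ℝ) ≤ S' := by exact_mod_cast hS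
  obtain ⟨s, hs, -⟩ := of_rk (rk_all (π := plc i j be co al) hP.inj hP.co_ge hP.co_lt l1 l2)
  have h2 := hP.narn s
  have hs' : co s = l := hs
  rw [hs'] at h2
  have h1 := hW.C
  have hi' : ((i - S' * an : ℕ) : ℝ) = i - S' * an := by
    rw [Nat.cast_sub hi]
    push_cast
    ring
  have h3 := lvl_le hO (x := 0) (i := i - S' * an) (j := j + S' * be) (i' := i) (j' := j)
    (by omega) hj hi2 (by omega) l1 l2.le (by
      rw [hi']
      push_cast
      have h4 : (W : ℝ) * 1 ≤ (lam l * an - gam l * be) * S' :=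
        mul_le_mul h2 hS1 zero_le_one (le_trans (Nat.cast_nonneg _) h2)
      nlinarith)
  have h4 : (D.g (i - S' * an) (j + S' * be) l : ℝ) ≤ D.g i j l := by linarith
  exact_mod_cast h4

/-- The own pair: the target is deeper. -/
theorem own_deep (hO : D.Ok2 n K J a₀ w₀ z M lam gam κ C₁ q) (hn : 1 ≤ n)
    (hP : PlN n lam gam (2 * C₁ + 1) c W be co al an) {S' : ℕ} {i₁ j₁ : ℕ} {x : ℕ}
    (hi : S' * an ≤ i) (hi2 : i ≤ M) (hj : j + S' * be ≤ M) (hi₁ : i₁ ≤ M) (hj₁ : j₁ ≤ M)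
    (hx : lam n * i₁ + gam n * j₁ + x + 2 * C₁ ≤ lam n * i + gam n * j + S' * (2 * C₁ + 1)) :
    D.g i₁ j₁ n + x * z ≤ D.g (i - S' * an) (j + S' * be) n := by
  have h2 := hP.tgt
  have hi' : ((i - S' * an : ℕ) : ℝ) = i - S' * an := by
    rw [Nat.cast_sub hi]
    push_cast
    ring
  have hS0 : (0 : ℝ) ≤ S' := Nat.cast_nonneg _
  have h3 := lvl_le hO (x := x) (i := i₁) (j := j₁) (i' := i - S' * an) (j' := j + S' * be)
    hi₁ hj₁ (by omega) hj hn le_rfl (by
      rw [hi']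
      push_cast
      have h4 := mul_le_mul_of_nonneg_left h2 hS0
      nlinarith)
  exact_mod_cast h3

end

end Pool.LSH
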