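import Pool.Agent.H50.VAL.ValC
import Pool.Agent.H12.MIC.Tms

/-!
# The middle: from values which are polynomials along the pieces of the lines to closed gradients

A law `p`, lines `L`, a context `c`, the exact time `T`, `t` is the relative time in the window `w` of
the lines. The values of the shape along the path of a line are polynomials in the time on the
pieces of length `2 ^ (-u)`, `u ≤ m`. `m` is the unit of length.
-/

set_option autoImplicit false

namespace Pool.LSH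

open Finset Polynomial
open Pool.Agent.H49.Ent Pool.Agent.H32.Dense Pool.STK Pool.BFL Pool.LBL Pool.MIC
open Pool.K2S (cpn)
open Pool.TMS (rt)

/-- The relative time in `[0, 1)`. -/
noncomputable def rtr {Ω : Type} (T : Ω → ℕ) (J w : ℕ) (ω : Ω) : ℝ :=
  (rt T J w ω : ℝ) / 2 ^ (J - w)

/-- The hypotheses of the middle. -/
structure MidH {Ω Λ Γ : Type} [Fintype Ω] {k E : ℕ} (p : Ω → ℝ) (L : Ω → Λ) (c : Ω → Γ)
    (T : Ω → ℕ) (Y : Ω → Fin k → ℕ) (kap : Ω → Pl k) (G : Ω → Prop)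
    (β : Λ → Fin k → Fin (E + 1) → ℝ) (b₀ : Fin k → ℝ) (n D J w X m s bb : ℕ)
    (C₀ θ κ₁ ϖ e : ℝ) : Prop where
  isLaw : IsLaw p
  c_L : Det p L c
  T_L : Det p L (fun ω => T ω / 2 ^ (J - w))
  /-- the time is full given the line -/
  tm : ((J - w : ℕ) : ℝ) * Real.log 2 - θ ≤ CH p T L
  Y_L : Det p (fun ω => (L ω, (c ω, rt T J w ω))) Y
  Y_lt : ∀ ω i, Y ω i < 2 ^ X
  deg : ∀ ω, (kap ω).totalDegree ≤ D
  cf : ∀ ω α, α ≠ 0 → |MvPolynomial.coeff α (kap ω)| ≤ 2 ^ bb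
  /-- the position is full given the context and the time -/
  full : k * (X * Real.log 2) - θ ≤ CH p Y (fun ω => (c ω, rt T J w ω))
  G_ge : ϖ ≤ Pb p G
  /-- the shape has few bits given the context and the time, on the event -/
  few : CH (cond p G True) (fun ω => rk s (kap ω)) (fun ω => (c ω, rt T J w ω)) ≤ κ₁
  /-- the path -/
  path : Pb p (fun ω => G ω ∧ ¬ ((∀ i j, |β (L ω) i j| ≤ C₀) ∧
    ∀ i, |pos (β (L ω)) (rtr T J w ω) i - (Y ω i : ℝ) / 2 ^ X| ≤ C₀ / 2 ^ X)) ≤ e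
  /-- the values -/
  vals : ∃ u ≤ m, ∃ g : Λ → ℤ → ℝ[X], (∀ l v, (g l v).degree < n) ∧
    Pb p (fun ω => G ω ∧ ¬ |MvPolynomial.eval (pos (β (L ω)) (rtr T J w ω)) (kap ω) -
      MvPolynomial.eval b₀ (kap ω) -
        (g (L ω) ⌊(2 : ℝ) ^ u * rtr T J w ω⌋).eval (rtr T J w ω)| ≤ 1 / 2 ^ s) ≤ e

/-- **The middle.** -/
def MidStmt : Prop :=
  ∀ (k n D E V : ℕ) (C₀ ϖ : ℝ) (b₀ : Fin k → ℝ), 1 ≤ C₀ → (∀ i, |b₀ i| ≤ 1) → 0 < ϖ → ϖ ≤ 1 →
    ∃ (A₂ a A K₂ : ℕ) (c₁ C : ℝ), V * A₂ < a ∧ 0 < c₁ ∧ 1 ≤ C ∧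
    ∀ (Ω Λ Γ : Type) [Fintype Ω] (p : Ω → ℝ) (L : Ω → Λ) (c : Ω → Γ) (T : Ω → ℕ)
      (Y : Ω → Fin k → ℕ) (kap : Ω → Pl k) (G : Ω → Prop)
      (β : Λ → Fin k → Fin (E + 1) → ℝ) (J w X m s bb : ℕ) (θ κ₁ : ℝ),
      0 ≤ θ → 0 ≤ κ₁ → C * (θ + κ₁ + 1) ≤ m → bb + 2 ≤ m → A * m ≤ s → s ≤ X →
      w + (V + 2) * m ≤ J →
      MidH p L c T Y kap G β b₀ n D J w X m s bb C₀ θ κ₁ ϖ c₁ →
      ∃ H : Λ → ℤ → Pl (k + 1), (∀ l z, (H l z).totalDegree ≤ K₂) ∧
        c₁ ≤ Pb p (fun ω => G ω ∧ ∀ z : Fin k → ℝ, (∀ i, |z i| ≤ C₀) → ∀ l,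
          |MvPolynomial.eval z (MvPolynomial.pderiv l (kap ω)) -
            MvPolynomial.eval (Fin.cons (rtr T J w ω) z : Fin (k + 1) → ℝ)
              (MvPolynomial.pderiv l.succ (H (L ω) ⌊rtr T J w ω * 2 ^ (A₂ * m)⌋))| *
            2 ^ (a * m) ≤ 2)

/-- The floor of the relative time. -/
theorem floor_rtr {Ω : Type} (T : Ω → ℕ) {J w u : ℕ} (hu : w + u ≤ J) (ω : Ω) :
    ⌊(2 : ℝ) ^ u * rtr T J w ω⌋ = ((rt T J w ω / 2 ^ (J - w - u) : ℕ) : ℤ) := by
  have h1 : (2 : ℝ) ^ u * rtr T J w ω = (rt T J w ω : ℝ) / ((2 ^ (J - w - u) : ℕ) : ℝ) := by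
    unfold rtr
    have h2 : J - w = (J - w - u) + u := by omega
    have h3 : (2 : ℝ) ^ (J - w) = 2 ^ (J - w - u) * 2 ^ u := by rw [← pow_add, ← h2]
    rw [h3]
    push_cast
    have h4 : (0 : ℝ) < 2 ^ u := by positivity
    have h5 : (0 : ℝ) < 2 ^ (J - w - u) := by positivity
    field_simp
  rw [h1, Int.floor_div_natCast, Int.floor_natCast]
  push_cast
  rfl

/-- The quotient of a floor. -/
theorem floor_quot (x : ℝ) (a b : ℕ) :
    ⌊x * 2 ^ (a + b)⌋ / ((2 ^ b : ℕ) : ℤ) = ⌊x * 2 ^ a⌋ := by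
  rw [← Int.floor_div_natCast]
  congr 1
  push_cast
  rw [pow_add]
  have h4 : (0 : ℝ) < 2 ^ b := by positivity
  field_simp

theorem Pb_or' {Ω : Type} [Fintype Ω] {p : Ω → ℝ} (hp : ∀ ω, 0 ≤ p ω) (A B : Ω → Prop) :
    Pb p (fun ω => A ω ∨ B ω) ≤ Pb p A + Pb p B := by
  classical
  unfold Pb
  rw [← Finset.sum_add_distrib]
  refine Finset.sum_le_sum fun ω _ => ?_
  have := hp ω
  by_cases hA : A ω <;> by_cases hB : B ω <;> simp [hA, hB] <;> linarith

/-- The parts of the relative time. -/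
theorem rt_parts {Ω : Type} (T : Ω → ℕ) {J w u : ℕ} (hu : w + u ≤ J) (ω : Ω) :
    rt T J w ω = rt T J w ω / 2 ^ (J - w - u) * 2 ^ (J - w - u) + rt T J (w + u) ω := by
  have h1 : rt T J (w + u) ω = rt T J w ω % 2 ^ (J - w - u) := by
    unfold Pool.TMS.rt
    rw [show J - (w + u) = J - w - u by omega, Nat.mod_mod_of_dvd]
    exact pow_dvd_pow 2 (by omega)
  rw [h1, mul_comm]
  exact (Nat.div_add_mod _ _).symm

/-- The longer quotient of the time. -/
theorem T_div {Ω : Type} (T : Ω → ℕ) {J w u : ℕ} (hu : w + u ≤ J) (ω : Ω) :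
    T ω / 2 ^ (J - (w + u)) =
      T ω / 2 ^ (J - w) * 2 ^ u + rt T J w ω / 2 ^ (J - w - u) := by
  have h2 : J - w = (J - w - u) + u := by omega
  have h1 : T ω = T ω / 2 ^ (J - w) * 2 ^ (J - w) + rt T J w ω := by
    unfold Pool.TMS.rt
    rw [mul_comm]
    exact (Nat.div_add_mod _ _).symm
  have h3 : (2 : ℕ) ^ (J - w) = 2 ^ u * 2 ^ (J - w - u) := by
    rw [← pow_add]
    congr 1
    omega
  rw [show J - (w + u) = J - w - u by omega]
  conv_lhs => rw [h1]
  have h4 : T ω / 2 ^ (J - w) * 2 ^ (J - w) = T ω / 2 ^ (J - w) * 2 ^ u * 2 ^ (J - w - u) := by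
    rw [mul_assoc, ← h3]
  rw [h4, Nat.add_comm, Nat.add_mul_div_right _ _ (by positivity), Nat.add_comm]

/-- **The middle.** -/
theorem mid_thm : MidStmt := by
  classical
  intro k n D E V C₀ ϖ b₀ hC₀ hb₀ hϖ hϖ1
  obtain ⟨A₂, a, A, K₂, N, c₁, C, hVa, hc₁, hC, hmic⟩ := mic_val_C k n D E V C₀ ϖ b₀ hC₀ hb₀ hϖ hϖ1
  obtain ⟨C', hC'⟩ : ∃ C' : ℝ, C' = C * (N + 1) + 8 / c₁ + 8 := ⟨_, rfl⟩
  have hN0 : (0 : ℝ) ≤ N := Nat.cast_nonneg _
  have h8 : 0 < 8 / c₁ := by positivity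
  refine ⟨A₂ * (V + 2) + 1, a * (V + 2), A * (V + 2), K₂, min c₁ (c₁ / 2), C', ?_, by
    rw [lt_min_iff]; constructor <;> linarith, ?_, ?_⟩
  · have h1 : V * A₂ + 1 ≤ a := hVa
    have h2 := Nat.mul_le_mul_right (V + 2) h1
    nlinarith
  · have : 0 ≤ C * (N + 1) := by positivity
    rw [hC']
    linarith
  intro Ω Λ Γ _ p L c T Y kap G β J w X m s bb θ κ₁ hθ hκ₁ hm hbb hAs hsX hwJ hM
  obtain ⟨u, hu, g, hg, hvals⟩ := hM.vals
  have hp := hM.isLaw
  obtain ⟨y, hy⟩ : ∃ y : ℕ, y = (V + 2) * m := ⟨_, rfl⟩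
  have hmy : m + m ≤ y := by
    rw [hy]
    nlinarith
  have huJ : w + u ≤ J := by omega
  have hyJ : w + y ≤ J := by omega
  have hmR : (1 : ℝ) ≤ m := by
    have h1 : 1 * 1 ≤ C' * (θ + κ₁ + 1) := by
      refine mul_le_mul ?_ (by linarith) (by norm_num) ?_
      · have : 0 ≤ C * (N + 1) := by positivity
        rw [hC']
        linarith
      · have : 0 ≤ C * (N + 1) := by positivity
        rw [hC']
        linarith
    linarith
  -- the lines with the first digits of the time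
  obtain ⟨vv, hvv⟩ : ∃ vv : Ω → ℕ, vv = fun ω => rt T J w ω / 2 ^ (J - w - u) := ⟨_, rfl⟩
  obtain ⟨L', hL'⟩ : ∃ L' : Ω → Λ × ℕ, L' = fun ω => (L ω, vv ω) := ⟨_, rfl⟩
  obtain ⟨b, hb⟩ : ∃ b : Ω → Γ × ℕ, b = fun ω => (c ω, vv ω) := ⟨_, rfl⟩
  have hT' : Det p L' (fun ω => T ω / 2 ^ (J - (w + u))) := by
    intro ω ω' hω hω' e
    rw [hL'] at e
    have e1 : L ω = L ω' := (Prod.ext_iff.1 e).1
    have e2 : vv ω = vv ω' := (Prod.ext_iff.1 e).2
    rw [hvv] at e2
    simp only at e2 ⊢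
    rw [T_div T huJ ω, T_div T huJ ω', e2]
    have e3 : T ω / 2 ^ (J - w) = T ω' / 2 ^ (J - w) := hM.T_L ω ω' hω hω' e1
    rw [e3]
  have hb_L : Det p L' b := by
    intro ω ω' hω hω' e
    rw [hL'] at e
    have e1 : L ω = L ω' := (Prod.ext_iff.1 e).1
    have e2 : vv ω = vv ω' := (Prod.ext_iff.1 e).2
    rw [hb]
    exact Prod.ext (hM.c_L ω ω' hω hω' e1) e2
  have hB_L : Det p L' L := by
    intro ω ω' _ _ e
    rw [hL'] at e
    exact (Prod.ext_iff.1 e).1
  -- the deficit of the time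
  have ht : ((J - (w + u) : ℕ) : ℝ) * Real.log 2 - θ ≤ CH p T L' := by
    have h1 := Pool.TMS.win_low hp T L (J := J) (w₀ := w) (w := w + u) (by omega) huJ hM.T_L hM.tm
    refine h1.trans (CH_mono_cond hp.nonneg ?_)
    intro ω ω' hω hω' e
    have e1 : L ω = L ω' := (Prod.ext_iff.1 e).1
    have e2 : T ω / 2 ^ (J - (w + u)) = T ω' / 2 ^ (J - (w + u)) := (Prod.ext_iff.1 e).2
    rw [T_div T huJ ω, T_div T huJ ω'] at e2
    have e3 : T ω / 2 ^ (J - w) = T ω' / 2 ^ (J - w) := hM.T_L ω ω' hω hω' e1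
    rw [e3] at e2
    rw [hL', hvv]
    exact Prod.ext e1 (Nat.add_left_cancel e2)
  obtain ⟨θ', hθ'⟩ : ∃ θ' : ℝ, θ' = (N + 1) * θ := ⟨_, rfl⟩
  have hθθ' : θ ≤ θ' := by
    rw [hθ']
    nlinarith
  have hV : ValC p L' b L (rt T J w) Y kap G (fun l => β l.1) (fun l => g l.1 (l.2 : ℤ)) b₀ n D N
      (J - w) X y s bb C₀ θ' κ₁ ϖ c₁ := by
    refine ⟨hp, hb_L, hB_L, ?_, fun ω => (Pool.TMS.rt_lt T J w ω).le, hM.Y_lt, hM.deg, hM.cf, ?_,
      hM.G_ge, ?_, ?_, ?_, ?_⟩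
    · intro ω ω' hω hω' e
      refine hM.Y_L ω ω' hω hω' ?_
      rw [hb] at e
      simp only [Prod.mk.injEq] at e ⊢
      tauto
    · -- full
      have h1 := hM.full
      have h2 : CH p Y (fun ω => (c ω, rt T J w ω)) ≤ CH p Y (fun ω => (b ω, rt T J w ω)) := by
        refine CH_mono_cond hp.nonneg ?_
        intro ω ω' _ _ e
        rw [hb, hvv]
        simp only [Prod.mk.injEq] at e ⊢
        rw [e.1, e.2]
        exact ⟨⟨rfl, rfl⟩, rfl⟩
      linarith
    · -- few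
      refine le_trans (CH_mono_cond (cond_nonneg hp.nonneg G True) ?_) hM.few
      intro ω ω' _ _ e
      rw [hb] at e
      simp only [Prod.mk.injEq] at e ⊢
      tauto
    · -- times
      have h1 := Pool.TMS.times_of hp (L := L') (B := L) (b := b) (T := T) (J := J) (w := w + u)
        hb_L hB_L hT' ht N
      refine h1.trans ?_
      rw [hθ']
      have hq := Pool.CLU.cpn_law hp L' N
      have h2 : CH (cpn p L' N) (fun v => L (v 0))
          (fun v => (b (v 0), fun i => rt T J (w + u) (v i))) ≤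
          CH (cpn p L' N) (fun v => L (v 0)) (fun v => (b (v 0), fun i => rt T J w (v i))) := by
        refine CH_mono_cond hq.nonneg ?_
        intro v v' hv hv' e
        have e1 : b (v 0) = b (v' 0) := (Prod.ext_iff.1 e).1
        have e2 : (fun i => rt T J (w + u) (v i)) = fun i => rt T J (w + u) (v' i) :=
          (Prod.ext_iff.1 e).2
        refine Prod.ext e1 ?_
        funext i
        have c1 := (Pool.CLU.cpn_pos hp.nonneg L' N v hv).2 i
        have c2 := (Pool.CLU.cpn_pos hp.nonneg L' N v' hv').2 i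
        rw [hL'] at c1 c2
        have c3 : vv (v i) = vv (v 0) := (Prod.ext_iff.1 c1).2
        have c4 : vv (v' i) = vv (v' 0) := (Prod.ext_iff.1 c2).2
        rw [hb] at e1
        have e3 : vv (v 0) = vv (v' 0) := (Prod.ext_iff.1 e1).2
        have e4 : rt T J (w + u) (v i) = rt T J (w + u) (v' i) := congrFun e2 i
        have e5 : vv (v i) = vv (v' i) := by rw [c3, c4, e3]
        rw [hvv] at e5
        show rt T J w (v i) = rt T J w (v' i)
        rw [rt_parts T huJ (v i), rt_parts T huJ (v' i), e4]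
        simp only at e5
        rw [e5]
      linarith
    · -- typical samples
      refine le_trans ?_ (le_trans (add_le_add hM.path hvals) ?_)
      · refine le_trans (Pb_mono_ae hp.nonneg fun ω _ h => ?_) (Pb_or' hp.nonneg _ _)
        obtain ⟨hG, hn⟩ := h
        by_contra hc
        push Not at hc
        obtain ⟨c1, c2⟩ := hc
        have d1 := c1 hG
        have d2 := c2 hG
        have e1 := floor_rtr T huJ ω
        rw [e1] at d2
        rw [hL', hvv] at hn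
        exact hn ⟨d1.1, hg _ _, d1.2, d2⟩
      · have := min_le_right c₁ (c₁ / 2)
        linarith
    · -- separation
      have h1 := Pool.TMS.sep_of hp T L' (J := J) (w := w + u) (y := y - u) (θ := θ)
        (by omega) hT' ht
      obtain ⟨P, hP⟩ : ∃ P, P = Pb (dbl p L') (fun v : Ω × Ω =>
        |((rt T J (w + u) v.1 : ℝ) / 2 ^ (J - (w + u))) -
          ((rt T J (w + u) v.2 : ℝ) / 2 ^ (J - (w + u)))| * 2 ^ (y - u) < 1) := ⟨_, rfl⟩
      rw [← hP] at h1
      have hP0 : 0 ≤ P := by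
        rw [hP]
        exact Pool.MIC.Pb_nonneg (fun v => dbl_nonneg hp.nonneg v) _
      have h2 : Pb (dbl p L') (fun v : Ω × Ω =>
          |((rt T J w v.1 : ℝ) / 2 ^ (J - w)) - ((rt T J w v.2 : ℝ) / 2 ^ (J - w))| *
            2 ^ y < 1) ≤ P := by
        rw [hP]
        refine Pb_mono_ae (fun v => dbl_nonneg hp.nonneg v) fun v hv h => ?_
        have c1 : L' v.1 = L' v.2 := ((glue_pos_iff hp.nonneg hp.nonneg v).1 hv).2.2
        rw [hL'] at c1
        have c3 : vv v.1 = vv v.2 := (Prod.ext_iff.1 c1).2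
        rw [hvv] at c3
        simp only at c3
        have e1 := rt_parts T huJ v.1
        have e2 := rt_parts T huJ v.2
        rw [c3] at e1
        have e3 : ((rt T J w v.1 : ℝ) / 2 ^ (J - w)) - ((rt T J w v.2 : ℝ) / 2 ^ (J - w)) =
            (((rt T J (w + u) v.1 : ℝ) / 2 ^ (J - (w + u))) -
              ((rt T J (w + u) v.2 : ℝ) / 2 ^ (J - (w + u)))) / 2 ^ u := by
          have f1 : (rt T J w v.1 : ℝ) - rt T J w v.2 =
              (rt T J (w + u) v.1 : ℝ) - rt T J (w + u) v.2 := by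
            have g1 := congrArg (fun a : ℕ => (a : ℝ)) e1
            have g2 := congrArg (fun a : ℕ => (a : ℝ)) e2
            simp only [Nat.cast_add] at g1 g2
            linarith
          have f2 : (2 : ℝ) ^ (J - w) = 2 ^ (J - (w + u)) * 2 ^ u := by
            rw [← pow_add]
            congr 1
            omega
          rw [← sub_div, f1, f2, ← sub_div, div_div]
        rw [e3] at h
        have e4 : (2 : ℝ) ^ y = 2 ^ u * 2 ^ (y - u) := by
          rw [← pow_add]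
          congr 1
          omega
        rw [e4, abs_div, abs_of_pos (show (0 : ℝ) < 2 ^ u by positivity)] at h
        have e5 : ∀ x : ℝ, x / 2 ^ u * (2 ^ u * 2 ^ (y - u)) = x * 2 ^ (y - u) := by
          intro x
          have : (0 : ℝ) < 2 ^ u := by positivity
          field_simp
        rw [e5] at h
        exact h
      refine h2.trans ?_
      have hl := Real.log_two_gt_d9
      have hl' := Real.log_two_lt_d9
      have hl3 : Real.log 3 ≤ 1.2 := by
        have h4 : Real.log 3 ≤ Real.log 4 := Real.log_le_log (by norm_num) (by norm_num)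
        have h5 : Real.log 4 = 2 * Real.log 2 := by
          rw [show (4 : ℝ) = 2 ^ 2 by norm_num, Real.log_pow]
          norm_num
        have h6 : Real.log 3 < 1.2 := by
          rw [Real.log_lt_iff_lt_exp (by norm_num)]
          have h7 := Real.sum_le_exp_of_nonneg (x := 1.2) (by norm_num) 6
          refine lt_of_lt_of_le ?_ h7
          norm_num [Finset.sum_range_succ, Nat.factorial]
        exact h6.le
      have hCm : (8 / c₁ + 8) * (θ + 1) ≤ m := by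
        refine le_trans ?_ hm
        have h3 : 0 ≤ C * (N + 1) := by positivity
        rw [hC']
        have h4 : θ + 1 ≤ θ + κ₁ + 1 := by linarith
        have h5 : (8 / c₁ + 8) * (θ + 1) ≤ (8 / c₁ + 8) * (θ + κ₁ + 1) :=
          mul_le_mul_of_nonneg_left h4 (by positivity)
        have h6 : 0 ≤ C * (N + 1) * (θ + κ₁ + 1) := by positivity
        nlinarith
      have hm8 : (8 : ℝ) ≤ m := by
        have h3 : 0 ≤ 8 / c₁ * (θ + 1) := by positivity
        nlinarith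
      have hyu : (m : ℝ) ≤ ((y - u : ℕ) : ℝ) := by
        exact_mod_cast (by omega : m ≤ y - u)
      have h4 : (m : ℝ) / 2 ≤ ((y - u : ℕ) : ℝ) * Real.log 2 - Real.log 3 := by nlinarith
      have h5 : P * (m / 2) ≤ θ + 1 := by
        refine (mul_le_mul_of_nonneg_left h4 hP0).trans (h1.trans ?_)
        linarith
      have h6 : 8 / c₁ * (θ + 1) ≤ m := by nlinarith
      have h7 : (θ + 1) ≤ c₁ / 8 * m := by
        have h8 := mul_le_mul_of_nonneg_left h6 (show 0 ≤ c₁ / 8 by positivity)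
        have h9 : c₁ / 8 * (8 / c₁ * (θ + 1)) = θ + 1 := by field_simp
        rw [h9] at h8
        exact h8
      by_contra hcon
      push Not at hcon
      have h8 : c₁ * ((m : ℝ) / 2) < P * (m / 2) := mul_lt_mul_of_pos_right hcon (by linarith)
      nlinarith
  obtain ⟨H, hHd, hH⟩ := hmic Ω (Λ × ℕ) (Γ × ℕ) Λ p L' b L (rt T J w) Y kap G (fun l => β l.1)
    (fun l => g l.1 (l.2 : ℤ)) (J - w) X y s bb θ' κ₁ (by rw [hθ']; positivity) hκ₁ (by
      have h1 : C * (θ' + κ₁ + 1) ≤ C * (N + 1) * (θ + κ₁ + 1) := by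
        rw [hθ', mul_assoc]
        refine mul_le_mul_of_nonneg_left ?_ (by linarith)
        nlinarith
      have h2 : C * (N + 1) * (θ + κ₁ + 1) ≤ C' * (θ + κ₁ + 1) := by
        refine mul_le_mul_of_nonneg_right ?_ (by linarith)
        rw [hC']
        linarith
      have h3 : (m : ℝ) ≤ y := by exact_mod_cast (by omega : m ≤ y)
      linarith) (by omega) (by rw [hy, ← mul_assoc]; exact hAs) hsX hV
  -- the closed polynomial as a function of the line and of the floor of the time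
  obtain ⟨m₂, hm₂⟩ : ∃ m₂ : ℕ, (A₂ * (V + 2) + 1) * m = A₂ * y + m₂ := ⟨m, by rw [hy]; ring⟩
  obtain ⟨m₃, hm₃⟩ : ∃ m₃ : ℕ, (A₂ * (V + 2) + 1) * m = u + m₃ := by
    refine ⟨(A₂ * (V + 2) + 1) * m - u, ?_⟩
    have : m ≤ (A₂ * (V + 2) + 1) * m := Nat.le_mul_of_pos_left _ (by omega)
    omega
  refine ⟨fun l x => H (l, (x / ((2 ^ m₃ : ℕ) : ℤ)).toNat) (x / ((2 ^ m₂ : ℕ) : ℤ)),
    fun l x => hHd _ _, ?_⟩
  refine (min_le_left _ _).trans (hH.trans (Pb_mono_ae hp.nonneg fun ω _ h => ⟨h.1, ?_⟩))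
  intro z hz l
  have h1 := h.2 z hz l
  have e1 : ⌊rtr T J w ω * 2 ^ ((A₂ * (V + 2) + 1) * m)⌋ / ((2 ^ m₂ : ℕ) : ℤ) =
      ⌊rtr T J w ω * 2 ^ (A₂ * y)⌋ := by
    rw [hm₂]
    exact floor_quot _ _ _
  have e2 : (⌊rtr T J w ω * 2 ^ ((A₂ * (V + 2) + 1) * m)⌋ / ((2 ^ m₃ : ℕ) : ℤ)).toNat = vv ω := by
    rw [hm₃, floor_quot, mul_comm, floor_rtr T huJ ω, hvv]
    exact Int.toNat_natCast _
  simp only
  rw [e1, e2]
  rw [hL'] at h1
  have e3 : a * (V + 2) * m = a * y := by rw [hy]; ring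
  rw [e3]
  exact h1

end Pool.LSH
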