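import Pool.Agent.H46.LSH.Lev
import Pool.Agent.H46.MicA.SubL
import Pool.Agent.H7.MIC.LLd
import Pool.Agent.H55.GEN.GluF

/-!
# The local theorem at a pair, all weights: interface

`MicOutS Q`: the local theorem at the pair `(i, j)`, the own leaf is at `(i - S' an, j + S' be)`. With
the gluing (`glu_thm`) it gives `MicLoc LdF Q`.
-/

set_option autoImplicit false

namespace Pool.LSH

open Finset MvPolynomial
open Pool.Agent.H49.Ent Pool.Agent.H32.Dense Pool.STK Pool.STAT Pool.MIC Pool.MicA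
open Pool.BFL (Pl Pb)
open Pool.STAT.Glu (EvK)

/-- Own leaves at all pairs and collinear contexts, as a field. -/
def LdF : Fldc := fun D n z M lam gam κ q => D.LLA n z M lam gam κ q ∧ D.DMA z M κ q

/-- **The local theorem at a pair.** `A₂ m z` digits of the time are paid, `a m z` digits of the
height are won. -/
def MicOutS (Q : Cond2) : Prop :=
  ∀ (n K B V : ℕ) (lam gam : ℕ → ℝ) (C₁ h c : ℝ), 1 ≤ n → 1 ≤ B → (∀ l, 0 < lam l) →
    (∀ l, 0 ≤ gam l) → 0 < gam n → 1 ≤ C₁ → 0 < h → h ≤ 1 → Q n lam gam →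
    ∃ (A₂ a K₂ : ℕ) (c₁ : ℝ), V * A₂ < a ∧ 0 < c₁ ∧ ∀ m₀ : ℕ,
    ∃ (m U bb W₁ S₁ : ℕ), m₀ ≤ m ∧ a * m ≤ U ∧
    ∀ (W be : ℕ) (co al : Fin (n - 1) → ℕ) (an : ℕ), W₁ ≤ W →
      PlN n lam gam (2 * C₁ + 1) c W be co al an → ∀ S' : ℕ, S₁ ≤ S' →
    ∃ R : ℕ, ∀ M : ℕ, R ≤ M → ∃ (κ ϖ : ℝ) (z₀ : ℕ), 0 < κ ∧ 0 < ϖ ∧
    ∀ (J a₀ w₀ z i j : ℕ) (D : NDat2) (q : D.Ω → ℝ), z₀ ≤ z →
      R ≤ i → i + R ≤ M → R ≤ j → j + R ≤ M →
      D.Ok2 n K J a₀ w₀ z M lam gam κ C₁ q → LdF D n z M lam gam κ q →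
      D.NF n z M B gam h C₁ ϖ q → D.TmU J w₀ z κ q →
      ∃ H : D.Λ × ℕ → ℤ → Pl (n - 1 + 1), (∀ x v, (H x v).totalDegree ≤ K₂) ∧
        c₁ ≤ Pb q (EvK D n (K * (K + 1) ^ n) J w₀ z i j (i - S' * an) (j + S' * be) (U * z)
          (bb * z) ((A₂ * m) * z) ((a * m) * z) H)

/-- From the local theorem at a pair to the local theorem. -/
def MicLocOutStmt : Prop :=
  ∀ Q : Cond2, (∀ n lam gam, Q n lam gam → CondA n lam gam) → MicOutS Q → MicLoc LdF Q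

/-- Own leaves and collinear contexts hold in a sub-cell. -/
def SubLdStmt : Prop := SubLoc LdF

end Pool.LSH
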