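import Pool.Agent.H46.LSH.OutS
import Pool.Agent.H55.LSH.Tra
import Pool.Agent.H55.LSH.Cl
import Pool.Agent.H12.LSH.Obj

/-!
# The entropic hypotheses of the sheets of a cell on an event: statement
-/

set_option autoImplicit false

namespace Pool.LSH

open Finset MvPolynomial
open Pool.Agent.H49.Ent Pool.Agent.H32.Dense Pool.STK Pool.STAT Pool.MIC Pool.MicA
open Pool.BFL (Pl Pb)

/-- **(H1'), (H2), (H3), (H5)** for the data of a cell on an event on which the own shape has few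
bits and is not truncated. -/
def DAStmt : Prop :=
  ∀ (n K K₀ B N bbn : ℕ) (lam gam : ℕ → ℝ) (C₁ h c p₁ F₀ ι κ₀ π₀ : ℝ), 1 ≤ n → 1 ≤ B → 1 ≤ bbn →
    (∀ l, 0 < lam l) → (∀ l, 0 ≤ gam l) → 0 < gam n → 1 ≤ C₁ → 0 < h → h ≤ 1 →
    CondA n lam gam → K * (K + 1) ^ n ≤ K₀ → 0 < p₁ → p₁ ≤ 1 → 0 ≤ F₀ → 0 < ι → 0 < κ₀ → κ₀ ≤ 1 →
    0 < π₀ → ∃ U₁ : ℕ, ∀ U : ℕ, U₁ ≤ U → ∃ (e : ℝ) (W₁ S₁ : ℕ), 0 < e ∧
    ∀ (W be : ℕ) (co al : Fin (n - 1) → ℕ) (an : ℕ), W₁ ≤ W →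
      PlN n lam gam (2 * C₁ + 1) c W be co al an → ∀ S' : ℕ, S₁ ≤ S' →
    ∃ R : ℕ, ∀ M : ℕ, R ≤ M → ∃ (κ ϖ : ℝ) (z₀ : ℕ), 0 < κ ∧ 0 < ϖ ∧
    ∀ (J a₀ w₀ z i j : ℕ) (D : NDat2) (q : D.Ω → ℝ) (ω₀ : D.Ω) (E : D.Ω → Prop), z₀ ≤ z →
      R ≤ i → i + R ≤ M → R ≤ j → j + R ≤ M →
      D.Ok2 n K J a₀ w₀ z M lam gam κ C₁ q → LdF D n z M lam gam κ q →
      D.NF n z M B gam h C₁ ϖ q → D.TmU J w₀ z κ q → p₁ ≤ Pb q E →
      Pb q (fun ω => ¬ Gdk D n K₀ z i j (i - S' * an) (j + S' * be) (U * z) (bbn * z) ω) ≤ e →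
      CH (cond q E True)
        (kpA D n K₀ z i j (i - S' * an) (j + S' * be) (U * z) (bbn * z))
        (fun ω => (D.c i j ω, thr D J (w₀ + j * z) ω)) ≤ F₀ * z →
      ((shA D (plc i j be co al) q J (w₀ + j * z) ω₀ n (U * z) N K₀ z (bbn * z)
        (i - S' * an, j + S' * be) (i + an, j - be)).wp (cond q E True)).H1' ι ∧
      ((shA D (plc i j be co al) q J (w₀ + j * z) ω₀ n (U * z) N K₀ z (bbn * z)
        (i - S' * an, j + S' * be) (i + an, j - be)).wp (cond q E True)).H2 ι ∧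
      ((shA D (plc i j be co al) q J (w₀ + j * z) ω₀ n (U * z) N K₀ z (bbn * z)
        (i - S' * an, j + S' * be) (i + an, j - be)).wp (cond q E True)).H3 ι ∧
      ((shA D (plc i j be co al) q J (w₀ + j * z) ω₀ n (U * z) N K₀ z (bbn * z)
        (i - S' * an, j + S' * be) (i + an, j - be)).wp (cond q E True)).H5 (h / 2) κ₀ π₀

end Pool.LSH
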