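import Pool.Agent.H46.MicA.Loc
import Pool.Agent.H46.MIC.W0s
import Pool.Agent.H30.MIC.Samp

/-!
# The own shape has few bits on an event

The own pair is deeper by `U₀ z`, the digits of the own shape are `U z`, `U ≤ U₀`. The bound does not
depend on `U`, `U₀`.
-/

set_option autoImplicit false

namespace Pool.LSH

open Finset MvPolynomial
open Pool.Agent.H49.Ent Pool.Agent.H32.Dense Pool.STK Pool.STAT Pool.MIC Pool.MicA
open Pool.BFL (Pl Pb)

/-- **The own shape has few bits on an event**, `X₀ = U₀ z` digits for the own pair. -/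
def FewAStmt : Prop :=
  ∀ (n K K₀ B c : ℕ) (lam gam : ℕ → ℝ) (C₁ h : ℝ), 1 ≤ n → 1 ≤ B → 0 < gam n → 1 ≤ C₁ →
    0 < h → h ≤ 1 → K * (K + 1) ^ n ≤ K₀ →
    ∃ (bbn θn : ℕ) (F₀ : ℝ), 1 ≤ bbn ∧ 0 ≤ F₀ ∧ ∀ U : ℕ, 1 ≤ U → ∃ U₀ : ℕ, U + c ≤ U₀ ∧ ∀ e : ℝ, 0 < e →
    ∃ (κ : ℝ) (z₀ : ℕ), 0 < κ ∧
    ∀ (J a₀ w₀ z M i j i' j' : ℕ) (D : NDat2) (q : D.Ω → ℝ), z₀ ≤ z →
      i + B * U₀ < M → (U₀ : ℝ) ≤ gam n * (M - j) → NDat2.Inn M U₀ i j → NDat2.Inn M U₀ i' j' →
      i' + U₀ ≤ i → j + U₀ ≤ j' → Fat D n i j i' j' → D.g i j n + U₀ * z ≤ D.g i' j' n →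
      D.Ok2 n K J a₀ w₀ z M lam gam κ C₁ q → D.NF n z M B gam h C₁ 1 q →
      D.LLP n z i j i' j' 0 U₀ (B * U₀) κ q → D.LLP n z i j i' j' 0 U (B * U) κ q →
      ((n - 1 : ℕ) : ℝ) * (((U * z : ℕ) : ℝ) * Real.log 2) - θn * z ≤
        CH q (Y1 D n z i j (U * z)) (fun ω => (D.c i j ω, thr D J (w₀ + j * z) ω)) ∧
      Pb q (fun ω => ¬ Gdk D n K₀ z i j i' j' (U * z) (bbn * z) ω) ≤ e ∧
      ∃ E : D.Ω → Prop, h / 16 ≤ Pb q E ∧
        (∀ ω, E ω → Gdk D n K₀ z i j i' j' (U₀ * z) (bbn * z) ω ∧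
          Gdk D n K₀ z i j i' j' (U * z) (bbn * z) ω) ∧
        CH (cond q E True) (fun ω => rk (U * z + c) (kpA D n K₀ z i j i' j' (U₀ * z) (bbn * z) ω))
          (fun ω => (D.c i j ω, thr D J (w₀ + j * z) ω)) ≤ F₀ * z

theorem Pb_le_one' {Ω : Type} [Fintype Ω] {p : Ω → ℝ} (hp : IsLaw p) (A : Ω → Prop) :
    Pb p A ≤ 1 := by
  classical
  rw [← hp.sum_one]
  unfold Pb
  refine Finset.sum_le_sum fun ω _ => ?_
  split_ifs
  · exact le_rfl
  · exact hp.nonneg ω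

/-- **The own shape has few bits on an event.** -/
theorem few_A : FewAStmt := by
  classical
  intro n K K₀ B c lam gam C₁ h hn hB hgn hC₁ hh hh1 hK
  have hl2 : 0 < Real.log 2 := Real.log_pos (by norm_num)
  obtain ⟨CE, hCE, hEnt⟩ := entA_stmt n K K₀ B 1 lam gam C₁ h hn hB le_rfl hgn hC₁ hh hh1 hK
  obtain ⟨Cb, hGdk⟩ := gdkA_stmt n K K₀ lam gam C₁ hn hC₁ hK
  obtain ⟨Cw, hCw, hw0⟩ := w0s (n - 1) K₀
  obtain ⟨bE, hbE⟩ := exists_nat_ge CE
  obtain ⟨bbn, hbbn⟩ : ∃ bbn : ℕ, bbn = Cb + bE := ⟨_, rfl⟩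
  obtain ⟨θn, hθn⟩ := exists_nat_ge (CE * bbn + 1)
  obtain ⟨η, hη⟩ : ∃ η : ℝ, η = h / 2 := ⟨_, rfl⟩
  have hη0 : 0 < η := by rw [hη]; positivity
  have hη1 : η ≤ 1 := by rw [hη]; linarith
  obtain ⟨F₁, hF₁⟩ : ∃ F₁ : ℝ, F₁ = Cw + Real.log (1 / η) + 4 * (θn + 1) / η := ⟨_, rfl⟩
  have hlη : 0 ≤ Real.log (1 / η) := Real.log_nonneg (by
    rw [le_div_iff₀ hη0]
    linarith)
  have hF₁0 : 0 ≤ F₁ := by rw [hF₁]; positivity
  have hbE1 : 1 ≤ bE := by exact_mod_cast hCE.trans hbE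
  refine ⟨bbn, θn, 16 / h * F₁, by omega, by positivity, fun U hU => ?_⟩
  obtain ⟨u₁, hu₁⟩ := exists_nat_ge (2 * Cw * (θn + 1) / η)
  obtain ⟨q₀, hq₀⟩ : ∃ q₀ : ℕ, q₀ = (U + c) + bbn + ((U + c) + u₁) + θn + 3 := ⟨_, rfl⟩
  obtain ⟨U₁, hU₁⟩ := exists_nat_ge (2 * Cw * q₀ / η)
  obtain ⟨U₂, hU₂⟩ := exists_nat_ge (2 * (CE * bbn + 1) / (h * Real.log 2))
  obtain ⟨U₀, hU₀⟩ : ∃ U₀ : ℕ, U₀ = U + c + U₁ + U₂ := ⟨_, rfl⟩
  have hCE0 : 0 < CE := by linarith
  have hU₀1 : (1 : ℝ) ≤ U₀ := by exact_mod_cast (by omega : 1 ≤ U₀)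
  have hU1 : (1 : ℝ) ≤ U := by exact_mod_cast hU
  have hUU : (U : ℝ) ≤ U₀ := by exact_mod_cast (by omega : U ≤ U₀)
  refine ⟨U₀, by omega, fun e he => ?_⟩
  obtain ⟨eG, heG⟩ : ∃ eG : ℝ, eG = min (min e (h / 64)) (1 / (CE * U₀)) := ⟨_, rfl⟩
  have heG0 : 0 < eG := by
    rw [heG]
    exact lt_min (lt_min he (by positivity)) (by positivity)
  have heG1 : eG ≤ e := by rw [heG]; exact (min_le_left _ _).trans (min_le_left _ _)
  have heG2 : eG ≤ h / 64 := by rw [heG]; exact (min_le_left _ _).trans (min_le_right _ _)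
  have heG3 : eG ≤ 1 / (CE * U₀) := by rw [heG]; exact min_le_right _ _
  obtain ⟨κ₂, z₂, hκ₂, hGdk1⟩ := hGdk eG heG0
  refine ⟨min κ₂ 1, max z₂ 1, lt_min hκ₂ one_pos, ?_⟩
  intro J a₀ w₀ z M i j i' j' D q hz hiM hgM hin hin' hii hjj hF hg hO hNF hL₀ hL
  have hz2 : z₂ ≤ z := (le_max_left _ _).trans hz
  have hz1 : 1 ≤ z := (le_max_right _ _).trans hz
  have hz0 : (0 : ℝ) ≤ z := Nat.cast_nonneg z
  have hzR : (1 : ℝ) ≤ z := by exact_mod_cast hz1
  have hq := hO.isLaw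
  obtain ⟨i1, i2, i3, i4⟩ := hin
  obtain ⟨i5, i6, i7, i8⟩ := hin'
  have hUB : U ≤ B * U₀ := (by omega : U ≤ U₀).trans (Nat.le_mul_of_pos_left _ (by omega))
  have hBU : B * U ≤ B * U₀ := Nat.mul_le_mul_left _ (by omega)
  have hg' : D.g i j n + U * z ≤ D.g i' j' n := by
    have : U * z ≤ U₀ * z := Nat.mul_le_mul_right _ (by omega)
    omega
  have hκ1 : min κ₂ 1 ≤ (1 : ℝ) := min_le_right _ _
  have hκ0 : (0 : ℝ) ≤ min κ₂ 1 := le_min hκ₂.le zero_le_one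
  have mk : min κ₂ 1 * (z : ℝ) ≤ κ₂ * z := mul_le_mul_of_nonneg_right (min_le_left _ _) hz0
  have hful : Pool.MIC.UniD.Ful D n i j z (κ₂ * z) q (fun ω => (D.s i' j' ω, (D.c i j ω, D.T ω))) :=
    Ful_mono (hL.ful1 (i₁ := i) (by omega) (by omega) (Nat.mul_pos hB (by omega))) mk
  have hbCb : Cb * z ≤ bbn * z := Nat.mul_le_mul_right _ (by omega)
  have hG : ∀ V : ℕ, 1 ≤ V → V ≤ U₀ →
      Pb q (fun ω => ¬ Gdk D n K₀ z i j i' j' (V * z) (bbn * z) ω) ≤ eG := by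
    intro V hV hVU
    have h1 : V * z ≤ U₀ * z := Nat.mul_le_mul_right _ hVU
    exact hGdk1 J a₀ w₀ z M i j i' j' (V * z) (bbn * z) D q hz2 (by omega) (by omega) (by omega)
      (by omega) hF (by omega) (Nat.le_mul_of_pos_left _ hV) hbCb (hO.mono_κ (min_le_left _ _)) hful
  have hG₀ := hG U₀ (by omega) le_rfl
  have hG₁ := hG U hU (by omega)
  have herr : ∀ V : ℕ, 1 ≤ V → V ≤ U₀ → CE * ((bbn * z : ℕ) : ℝ) + CE * ((V : ℝ) * z) *
      Pb q (fun ω => ¬ Gdk D n K₀ z i j i' j' (V * z) (bbn * z) ω) ≤ (CE * bbn + 1) * z := by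
    intro V hV hVU
    have e0 := (hG V hV hVU).trans heG3
    have hVR : (V : ℝ) ≤ U₀ := by exact_mod_cast hVU
    have e1 : CE * ((V : ℝ) * z) *
        Pb q (fun ω => ¬ Gdk D n K₀ z i j i' j' (V * z) (bbn * z) ω) ≤
        CE * (U₀ * z) * (1 / (CE * U₀)) := by
      refine mul_le_mul ?_ e0 (Pb_nonneg hq.nonneg _) (by positivity)
      exact mul_le_mul_of_nonneg_left (mul_le_mul_of_nonneg_right hVR hz0) hCE0.le
    have e2 : CE * (U₀ * z) * (1 / (CE * U₀)) = z := by field_simp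
    push_cast
    nlinarith
  have hCEb : CE * (z : ℝ) ≤ ((bbn * z : ℕ) : ℝ) := by
    push_cast
    refine mul_le_mul_of_nonneg_right ?_ hz0
    rw [hbbn]
    push_cast
    have : (0 : ℝ) ≤ Cb := Nat.cast_nonneg _
    linarith
  have hent : ∀ V : ℕ, 1 ≤ V → V ≤ U₀ → D.LLP n z i j i' j' 0 V (B * V) (min κ₂ 1) q → _ :=
    fun V hV hVU hLV => hEnt J a₀ w₀ z M i j i' j' 0 V (bbn * z) (min κ₂ 1) 1 D q hz1 hκ0 hκ1
      le_rfl hV
      (by have : B * V ≤ B * U₀ := Nat.mul_le_mul_left _ hVU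
          omega)
      (le_trans (by exact_mod_cast hVU) hgM)
      ⟨by omega, by omega, by omega, by omega⟩ ⟨by omega, by omega, by omega, by omega⟩
      (by omega) (by omega) hF
      (by have : V * z ≤ U₀ * z := Nat.mul_le_mul_right _ hVU
          omega) hCEb hO hNF hLV
  have hY : ∀ X ω, 0 < q ω → Y1 D n z i j X ω = Yp D n z i j X ω := fun X ω hω =>
    Y1_eq hO (by omega) (by omega) hω X
  refine ⟨?_, hG₁.trans heG1, ?_⟩
  · -- the position is full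
    obtain ⟨hE1, -, -⟩ := hent U hU (by omega) hL
    have e1 := CH_ae hq.nonneg (X := Y1 D n z i j (U * z)) (X' := Yp D n z i j (U * z))
      (W := fun ω => (D.c i j ω, thr D J (w₀ + j * z) ω))
      (W' := fun ω => (D.c i j ω, thr D J (w₀ + j * z) ω)) (hY _) (fun _ _ => rfl)
    rw [e1]
    have e2 : CH q (Yp D n z i j (U * z)) (fun ω => (htA D n K₀ z i j i' j' (U * z) (bbn * z) ω,
        (kpA D n K₀ z i j i' j' (U * z) (bbn * z) ω, (D.c i j ω, thr D J (w₀ + j * z) ω)))) ≤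
        CH q (Yp D n z i j (U * z)) (fun ω => (D.c i j ω, thr D J (w₀ + j * z) ω)) :=
      CH_mono_cond hq.nonneg fun _ _ _ _ e => (Prod.ext_iff.1 (Prod.ext_iff.1 e).2).2
    have e3 := herr U hU (by omega)
    have e4 : (CE * bbn + 1) * (z : ℝ) ≤ θn * z := mul_le_mul_of_nonneg_right hθn hz0
    linarith
  -- the event
  obtain ⟨hE1, hE2, hE3⟩ := hent U₀ (by omega) le_rfl hL₀
  have e3 := herr U₀ (by omega) le_rfl
  have e4 : (CE * bbn + 1) * (z : ℝ) ≤ θn * z := mul_le_mul_of_nonneg_right hθn hz0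
  obtain ⟨X, hX⟩ : ∃ X, X = U₀ * z := ⟨_, rfl⟩
  have hXR : (X : ℝ) = U₀ * z := by rw [hX]; push_cast; ring
  rw [← hX] at hE1 hE2 hE3 hG₀ e3
  obtain ⟨u, hu⟩ : ∃ u : ℕ, u = (U * z + c) + u₁ * z + 1 := ⟨_, rfl⟩
  obtain ⟨Ew, hEw, hfew⟩ := hw0 D.Ω (D.Γ × ℕ) q X 0 (bbn * z) (U * z + c) u
    (fun ω => (D.c i j ω, thr D J (w₀ + j * z) ω)) (fun ω l => (Y1 D n z i j X ω l : ℤ))
    (htA D n K₀ z i j i' j' X (bbn * z)) (nuA D n i j X) (kpA D n K₀ z i j i' j' X (bbn * z))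
    (θn * z) 1 η hq (by omega) (by positivity) zero_le_one hη0 hη1
    (by rw [hX]; exact Nat.mul_pos (by omega) (by omega))
    (fun ω _ l => by
      have h1 := Y1_lt D n z i j X ω l
      have h2 : ((Y1 D n z i j X ω l : ℕ) : ℝ) < 2 ^ X := by exact_mod_cast h1
      simp only [Int.cast_natCast, Nat.abs_cast, pow_zero, one_mul]
      exact h2.le)
    (fun ω _ => kpA_deg D n K₀ z i j i' j' X (bbn * z) ω)
    (fun ω _ α _ => kpA_cf D n K₀ z i j i' j' X (bbn * z) ω α)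
    (fun ω hω => by
      have := hgt_A hO (by omega : i ≤ M) (by omega : j ≤ M) K₀ i' j' X (bbn * z) hω
      simp only [Int.cast_natCast]
      exact this)
    (by
      refine hE2.trans ?_
      have f1 : CH q (kpA D n K₀ z i j i' j' X (bbn * z)) (fun ω => (nuA D n i j X ω,
          (Yp D n z i j X ω, (D.c i j ω, thr D J (w₀ + j * z) ω)))) =
          CH q (kpA D n K₀ z i j i' j' X (bbn * z)) (fun ω => (nuA D n i j X ω,
            ((fun l => (Y1 D n z i j X ω l : ℤ)), (D.c i j ω, thr D J (w₀ + j * z) ω)))) := by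
        refine CH_congr hq.nonneg (fun _ _ _ _ h => (Prod.ext_iff.1 h).1)
          (fun _ _ _ _ h => (Prod.ext_iff.1 h).1) ?_ ?_
        · intro ω ω' hω hω' h
          simp only [Prod.mk.injEq] at h ⊢
          refine ⟨h.1, ?_, h.2.2⟩
          rw [hY X ω hω, hY X ω' hω', h.2.1]
        · intro ω ω' hω hω' h
          simp only [Prod.mk.injEq] at h ⊢
          refine ⟨h.1, ?_, h.2.2⟩
          rw [← hY X ω hω, ← hY X ω' hω']
          funext l
          exact_mod_cast congrFun h.2.1 l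
      rw [f1]
      linarith)
    (by
      refine le_trans (by linarith) (hE1.trans (le_of_eq ?_))
      refine CH_congr hq.nonneg ?_ ?_ (fun _ _ _ _ h => h) (fun _ _ _ _ h => h)
      · intro ω ω' hω hω' h
        have h1 : Yp D n z i j X ω = Yp D n z i j X ω' := (Prod.ext_iff.1 h).1
        simp only
        rw [hY X ω hω, hY X ω' hω', h1]
      · intro ω ω' hω hω' h
        have h1 : (fun l => ((Y1 D n z i j X ω l : ℕ) : ℤ)) =
          fun l => ((Y1 D n z i j X ω' l : ℕ) : ℤ) := (Prod.ext_iff.1 h).1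
        rw [← hY X ω hω, ← hY X ω' hω']
        funext l
        exact_mod_cast congrFun h1 l)
    (by
      have f1 : CH q (nuA D n i j X) (fun ω => ((fun l => (Y1 D n z i j X ω l : ℤ)),
          (D.c i j ω, thr D J (w₀ + j * z) ω))) = CH q (nuA D n i j X) (fun ω =>
            (Yp D n z i j X ω, (D.c i j ω, thr D J (w₀ + j * z) ω))) := by
        refine CH_congr hq.nonneg (fun _ _ _ _ h => (Prod.ext_iff.1 h).1)
          (fun _ _ _ _ h => (Prod.ext_iff.1 h).1) ?_ ?_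
        · intro ω ω' hω hω' h
          simp only [Prod.mk.injEq] at h ⊢
          refine ⟨?_, h.2⟩
          rw [← hY X ω hω, ← hY X ω' hω']
          funext l
          exact_mod_cast congrFun h.1 l
        · intro ω ω' hω hω' h
          simp only [Prod.mk.injEq] at h ⊢
          refine ⟨?_, h.2⟩
          rw [hY X ω hω, hY X ω' hω', h.1]
      rw [f1]
      refine hE3.trans ?_
      have e5 : (CE * bbn + 1) * (z : ℝ) ≤ h / 2 * (X * Real.log 2) := by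
        rw [hXR]
        have e6 : 2 * (CE * bbn + 1) / (h * Real.log 2) ≤ U₀ := by
          refine hU₂.trans ?_
          exact_mod_cast (by omega : U₂ ≤ U₀)
        rw [div_le_iff₀ (by positivity)] at e6
        nlinarith
      rw [hη]
      linarith)
    (by
      have f1 : ((U * z + c : ℕ) : ℝ) ≤ (U + c) * z := by
        push_cast
        have : (0 : ℝ) ≤ c := Nat.cast_nonneg _
        nlinarith
      have f2 : (u : ℝ) ≤ ((U + c) + u₁ + 1) * z := by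
        rw [hu]
        push_cast
        have : (0 : ℝ) ≤ c := Nat.cast_nonneg _
        nlinarith
      have f3 : (u₁ : ℝ) * z ≤ u := by
        rw [hu]
        push_cast
        have : (0 : ℝ) ≤ c := Nat.cast_nonneg _
        nlinarith [mul_nonneg (Nat.cast_nonneg (α := ℝ) U) hz0]
      have hu0 : (0 : ℝ) < u := by
        rw [hu]
        positivity
      have f4 : Cw * ((X : ℝ) * (θn * z + (0 : ℕ) + 1) / u) ≤ η / 2 * X := by
        have g1 : 2 * Cw * (θn + 1) ≤ u₁ * η := by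
          rwa [div_le_iff₀ hη0] at hu₁
        have g2 : (θn * z + ((0 : ℕ) : ℝ) + 1) ≤ (θn + 1) * z := by
          push_cast
          nlinarith
        have g3 : 2 * Cw * (θn * z + ((0 : ℕ) : ℝ) + 1) ≤ η * u := by
          calc 2 * Cw * (θn * z + ((0 : ℕ) : ℝ) + 1) ≤ 2 * Cw * ((θn + 1) * z) :=
                mul_le_mul_of_nonneg_left g2 (by linarith)
            _ = 2 * Cw * (θn + 1) * z := by ring
            _ ≤ u₁ * η * z := mul_le_mul_of_nonneg_right g1 hz0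
            _ = η * (u₁ * z) := by ring
            _ ≤ η * u := mul_le_mul_of_nonneg_left f3 hη0.le
        have g4 : Cw * ((X : ℝ) * (θn * z + (0 : ℕ) + 1) / u) =
            X / 2 * (2 * Cw * (θn * z + ((0 : ℕ) : ℝ) + 1)) / u := by ring
        rw [g4, div_le_iff₀ hu0]
        have g5 := mul_le_mul_of_nonneg_left g3 (by positivity : (0 : ℝ) ≤ X / 2)
        linarith
      have f5 : Cw * (((U * z + c : ℕ) : ℝ) + ((bbn * z : ℕ) : ℝ) + u + ((0 : ℕ) : ℝ) + 1 +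
          θn * z + 1) ≤ η / 2 * X := by
        have g1 : 2 * Cw * q₀ ≤ U₀ * η := by
          have : 2 * Cw * q₀ / η ≤ U₀ := hU₁.trans (by exact_mod_cast (by omega : U₁ ≤ U₀))
          rwa [div_le_iff₀ hη0] at this
        have g2 : ((U * z + c : ℕ) : ℝ) + ((bbn * z : ℕ) : ℝ) + u + ((0 : ℕ) : ℝ) + 1 +
            θn * z + 1 ≤ q₀ * z := by
          rw [hq₀]
          push_cast at f1 ⊢
          nlinarith
        have g3 := mul_le_mul_of_nonneg_left g2 (by linarith : (0 : ℝ) ≤ Cw)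
        have g4 := mul_le_mul_of_nonneg_right g1 hz0
        rw [hXR]
        nlinarith
      linarith)
  obtain ⟨E, hE⟩ : ∃ E : D.Ω → Prop, E = fun ω => Ew ω ∧
      (Gdk D n K₀ z i j i' j' (U₀ * z) (bbn * z) ω ∧
        Gdk D n K₀ z i j i' j' (U * z) (bbn * z) ω) := ⟨_, rfl⟩
  have hPE : h / 16 ≤ Pb q E := by
    have g1 : Pb q Ew ≤ Pb q E + (Pb q (fun ω => ¬ Gdk D n K₀ z i j i' j' X (bbn * z) ω) +
        Pb q (fun ω => ¬ Gdk D n K₀ z i j i' j' (U * z) (bbn * z) ω)) := by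
      refine le_trans (Pb_mono_ae hq.nonneg (B := fun ω => E ω ∨
        (¬ Gdk D n K₀ z i j i' j' X (bbn * z) ω ∨
          ¬ Gdk D n K₀ z i j i' j' (U * z) (bbn * z) ω)) fun ω _ hω => ?_)
        ((Pb_or2 hq.nonneg _ _).trans (add_le_add le_rfl (Pb_or2 hq.nonneg _ _)))
      by_cases c1 : Gdk D n K₀ z i j i' j' X (bbn * z) ω
      · by_cases c2 : Gdk D n K₀ z i j i' j' (U * z) (bbn * z) ω
        · left
          rw [hE]
          rw [hX] at c1
          exact ⟨hω, c1, c2⟩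
        · exact Or.inr (Or.inr c2)
      · exact Or.inr (Or.inl c1)
    have g2 : η / 4 = h / 8 := by rw [hη]; ring
    rw [g2] at hEw
    linarith
  refine ⟨E, hPE, fun ω hω => ?_, ?_⟩
  · rw [hE] at hω
    exact hω.2
  · have hPE0 : 0 < Pb q E := lt_of_lt_of_le (by positivity) hPE
    have g1 := Pool.MIC30.CH_sub_ev hq (E := Ew) (F := E) (fun ω hω => by
      rw [hE] at hω
      exact hω.1) hPE0 (fun ω => rk (U * z + c) (kpA D n K₀ z i j i' j' (U₀ * z) (bbn * z) ω))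
      (fun ω => (D.c i j ω, thr D J (w₀ + j * z) ω))
    rw [hX] at hfew
    have g2 : Cw + Real.log (1 / η) + 4 * (θn * z + 1) / η ≤ F₁ * z := by
      rw [hF₁]
      have a1 : Cw ≤ Cw * z := by nlinarith
      have a2 : Real.log (1 / η) ≤ Real.log (1 / η) * z := by nlinarith
      have a3 : 4 * (θn * z + 1) / η ≤ 4 * (θn + 1) / η * z := by
        rw [div_mul_eq_mul_div]
        refine div_le_div_of_nonneg_right ?_ hη0.le
        nlinarith
      nlinarith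
    have g3 : Pb q Ew / Pb q E ≤ 16 / h := by
      have a1 : Pb q Ew ≤ 1 := Pb_le_one' hq _
      rw [div_le_div_iff₀ hPE0 hh]
      nlinarith
    have g4 : 0 ≤ Pb q Ew / Pb q E := by
      have := Pb_nonneg hq.nonneg Ew
      positivity
    have g5 : 0 ≤ F₁ * z := by positivity
    refine g1.trans ?_
    calc _ ≤ Pb q Ew / Pb q E * (F₁ * z) := mul_le_mul_of_nonneg_left (hfew.trans g2) g4
      _ ≤ 16 / h * (F₁ * z) := mul_le_mul_of_nonneg_right g3 g5
      _ = _ := by ring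

end Pool.LSH
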