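import Pool.Agent.H46.LSH.Mid
import Pool.Agent.H46.LSH.FewA
import Pool.Agent.H46.LSH.DaS
import Pool.Agent.H12.LSH.Sha
import Pool.Agent.H12.LSH.Val
import Pool.Agent.H12.LSH.Kpc

/-!
# The values of the own shape: from the sheets of a cell to the middle
-/

set_option autoImplicit false

namespace Pool.LSH

open Finset MvPolynomial
open Pool.Agent.H49.Ent Pool.Agent.H32.Dense Pool.STK Pool.STAT Pool.MIC Pool.MicA Pool.LBL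
open Pool.BFL (Pl Pb)
open Pool.KAF (Pr)
open Pool.TMS (rt)
open scoped Polynomial

theorem Pr_Pb {Ω : Type} [Fintype Ω] (p : Ω → ℝ) (E : Set Ω) : Pr p E = Pb p (fun ω => ω ∈ E) :=
  law_True p _

section

variable {D : NDat2} {n K J a₀ w₀ z M : ℕ} {lam gam : ℕ → ℝ} {κ C₁ : ℝ} {q : D.Ω → ℝ}

/-- **The values of the own shape.** -/
theorem vals_cell (hO : D.Ok2 n K J a₀ w₀ z M lam gam κ C₁ q) {π : Pls (n - 1)} {X c K₀ : ℕ}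
    (hP : Plc D n z X c M π) {N bb E' : ℕ} {o' a : ℕ × ℕ} (ω₀ : D.Ω) {E : D.Ω → Prop}
    (hE : 0 < Pb q E) (G : Set D.Ω) {κ₂ ε : ℝ} {u s : ℕ} (g : D.Λ × ℕ → ℤ → ℝ[X])
    (hs : (s : ℝ) ≤ κ₂ * X) (hε : 0 ≤ ε)
    (h : Pb (cond q E True) (fun ω => ω ∈ G ∧ (2 : ℝ) ^ (-(κ₂ * X)) <
      |(shA D π q J (w₀ + π.o.2 * z) ω₀ n X N K₀ z bb o' a).val (D.wn J (w₀ + π.o.2 * z) ω)
        ((shA D π q J (w₀ + π.o.2 * z) ω₀ n X N K₀ z bb o' a).T ω) -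
        (g (D.wn J (w₀ + π.o.2 * z) ω) ⌊(2 : ℝ) ^ u *
          (shA D π q J (w₀ + π.o.2 * z) ω₀ n X N K₀ z bb o' a).th
            ((shA D π q J (w₀ + π.o.2 * z) ω₀ n X N K₀ z bb o' a).T ω)⌋).eval
          ((shA D π q J (w₀ + π.o.2 * z) ω₀ n X N K₀ z bb o' a).th
            ((shA D π q J (w₀ + π.o.2 * z) ω₀ n X N K₀ z bb o' a).T ω))|) ≤ ε)
    {β : D.Λ × ℕ → Fin (n - 1) → Fin (E' + 1) → ℝ}
    (hβ : ∀ ω, 0 < q ω → ∀ l, pos (β (D.wn J (w₀ + π.o.2 * z) ω))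
      ((thr D J (w₀ + π.o.2 * z) ω : ℝ) / 2 ^ (J - (w₀ + π.o.2 * z))) l =
        up z (zt D π.o.1 π.o.2 ω (l + 1))) :
    Pb q (fun ω => (E ω ∧ ω ∈ G) ∧
      ¬ |eval (pos (β (D.wn J (w₀ + π.o.2 * z) ω)) (rtr D.T J (w₀ + π.o.2 * z) ω))
          (kpA D n K₀ z π.o.1 π.o.2 o'.1 o'.2 X bb ω) -
        eval (fun _ => 1 / 2) (kpA D n K₀ z π.o.1 π.o.2 o'.1 o'.2 X bb ω) -
        (g (D.wn J (w₀ + π.o.2 * z) ω) ⌊(2 : ℝ) ^ u * rtr D.T J (w₀ + π.o.2 * z) ω⌋).eval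
          (rtr D.T J (w₀ + π.o.2 * z) ω)| ≤ 1 / 2 ^ s) ≤ ε := by
  have hq := hO.isLaw
  refine le_trans (Pb_mono_ae hq.nonneg (B := fun ω => E ω ∧ (ω ∈ G ∧ (2 : ℝ) ^ (-(κ₂ * X)) <
      |(shA D π q J (w₀ + π.o.2 * z) ω₀ n X N K₀ z bb o' a).val (D.wn J (w₀ + π.o.2 * z) ω)
        ((shA D π q J (w₀ + π.o.2 * z) ω₀ n X N K₀ z bb o' a).T ω) -
        (g (D.wn J (w₀ + π.o.2 * z) ω) ⌊(2 : ℝ) ^ u *
          (shA D π q J (w₀ + π.o.2 * z) ω₀ n X N K₀ z bb o' a).th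
            ((shA D π q J (w₀ + π.o.2 * z) ω₀ n X N K₀ z bb o' a).T ω)⌋).eval
          ((shA D π q J (w₀ + π.o.2 * z) ω₀ n X N K₀ z bb o' a).th
            ((shA D π q J (w₀ + π.o.2 * z) ω₀ n X N K₀ z bb o' a).T ω))|)) fun ω hω hb => ?_) ?_
  · obtain ⟨⟨h1, h2⟩, h3⟩ := hb
    refine ⟨h1, h2, ?_⟩
    rw [sha_val_o hO hP ω₀ hω N, sha_th ω₀ ω N]
    have h4 : (fun l : Fin (n - 1) => up z (zt D π.o.1 π.o.2 ω (l + 1))) =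
        pos (β (D.wn J (w₀ + π.o.2 * z) ω)) (rtr D.T J (w₀ + π.o.2 * z) ω) :=
      funext fun l => (hβ ω hω l).symm
    rw [h4]
    push Not at h3
    refine lt_of_le_of_lt ?_ h3
    rw [one_div, ← Real.rpow_natCast, ← Real.rpow_neg (by norm_num)]
    exact Real.rpow_le_rpow_of_exponent_le (by norm_num) (by linarith)
  · rw [← Pb_cond_ge E _ hE]
    have h1 : Pb q E ≤ 1 := Pb_le_one' hq E
    calc _ ≤ ε * Pb q E := mul_le_mul_of_nonneg_right h hE.le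
      _ ≤ ε * 1 := mul_le_mul_of_nonneg_left h1 hε
      _ = ε := mul_one ε

/-- **The hypotheses of the middle in a cell.** -/
theorem midh_cell (hO : D.Ok2 n K J a₀ w₀ z M lam gam κ C₁ q) {κT : ℝ} (hT : D.TmU J w₀ z κT q)
    {i j i' j' X K₀ bb s m w nn E' : ℕ} (hw : w = w₀ + j * z) (hwJ : w ≤ J) (hi : i ≤ M)
    (hj : j ≤ M) {E : D.Ω → Prop} {β : D.Λ × ℕ → Fin (n - 1) → Fin (E' + 1) → ℝ}
    (hβ : ∀ ω, 0 < q ω → ∀ l, pos (β (D.wn J w ω)) ((thr D J w ω : ℝ) / 2 ^ (J - w)) l =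
      up z (zt D i j ω (l + 1))) {θ κ₁ ϖ c₁ : ℝ}
    (hβ1 : Pb q (fun ω => ¬ ∀ l e, |β (D.wn J w ω) l e| ≤ 1) ≤ c₁) (hθ : κT * z ≤ θ)
    (hfull : ((n - 1 : ℕ) : ℝ) * ((X : ℝ) * Real.log 2) - θ ≤
      CH q (Y1 D n z i j X) (fun ω => (D.c i j ω, thr D J w ω))) (hE : ϖ ≤ Pb q E)
    (hfew : CH (cond q E True) (kpA D n K₀ z i j i' j' X bb)
      (fun ω => (D.c i j ω, thr D J w ω)) ≤ κ₁)
    (hvals : ∃ u ≤ m, ∃ g : D.Λ × ℕ → ℤ → ℝ[X], (∀ l v, (g l v).degree < nn) ∧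
      Pb q (fun ω => E ω ∧ ¬ |eval (pos (β (D.wn J w ω)) (rtr D.T J w ω))
          (kpA D n K₀ z i j i' j' X bb ω) -
        eval (fun _ => 1 / 2) (kpA D n K₀ z i j i' j' X bb ω) -
        (g (D.wn J w ω) ⌊(2 : ℝ) ^ u * rtr D.T J w ω⌋).eval (rtr D.T J w ω)| ≤ 1 / 2 ^ s) ≤ c₁) :
    MidH q (D.wn J w) (D.c i j) D.T (Y1 D n z i j X) (kpA D n K₀ z i j i' j' X bb) E β
      (fun _ => 1 / 2) nn K₀ J w X m s bb 1 θ κ₁ ϖ c₁ := by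
  have hq := hO.isLaw
  refine ⟨hq, ?_, fun _ _ _ _ e => (Prod.ext_iff.1 e).2, ?_, Y_det hO hi hj w X,
    Y1_lt D n z i j X, kpA_deg D n K₀ z i j i' j' X bb,
    fun ω α _ => kpA_cf D n K₀ z i j i' j' X bb ω α, hfull, hE, ?_, ?_, hvals⟩
  · rw [hw]
    exact hO.c_wn i hi j hj
  · have h1 := Pool.TMS.win_low hq D.T D.ln (J := J) (w₀ := w₀) (w := w) (by omega) hwJ
      hO.ln_w hT
    refine le_trans ?_ h1
    linarith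
  · refine le_trans (CH_mono_left (cond_nonneg hq.nonneg E True) ?_) hfew
    intro ω ω' _ _ e
    have e1 : kpA D n K₀ z i j i' j' X bb ω = kpA D n K₀ z i j i' j' X bb ω' :=
      (Prod.ext_iff.1 e).1
    simp only
    rw [e1]
  · refine (Pb_mono_ae hq.nonneg fun ω hω h => ?_).trans hβ1
    intro hc
    refine h.2 ⟨hc, fun l => ?_⟩
    have e1 : pos (β (D.wn J w ω)) (rtr D.T J w ω) l = up z (zt D i j ω (l + 1)) := hβ ω hω l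
    rw [e1, Y1_eq hO hi hj hω]
    have h4 := Yp_near hO hi hj hω X l
    rw [abs_of_nonneg h4.1]
    exact h4.2.1

end

end Pool.LSH
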