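import Pool.Agent.H12.LSH.Shd
import Pool.Agent.H19.STAT.Sys2L

/-!
# The numbers of the places

`be` is the number of steps of the window, `al r` the number of steps of the radius of the
coordinate of rank `r`, `an` of the target. The coordinates are ordered by the ratio.
-/

set_option autoImplicit false

namespace Pool.LSH

open Finset Pool.STAT

/-- The numbers of the places. -/
structure PlN (n : ℕ) (lam gam : ℕ → ℝ) (c₀ c : ℝ) (W be : ℕ) (co al : Fin (n - 1) → ℕ)
    (an : ℕ) : Prop where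
  co_ge : ∀ r, 1 ≤ co r
  co_lt : ∀ r, co r < n
  inj : Function.Injective co
  W_be : W ≤ be
  mono : Monotone al
  gap : ∀ r s, al r < al s → al r + W ≤ al s
  gapn : ∀ r, al r + W ≤ an
  own : ∀ r s, al r = al s → c₀ ≤ lam (co s) * al r - gam (co s) * be ∧
    lam (co s) * al r - gam (co s) * be ≤ c
  nar : ∀ r s, al s < al r → (W : ℝ) ≤ lam (co s) * al r - gam (co s) * be
  wid : ∀ r s, al r < al s → (W : ℝ) ≤ gam (co s) * be - lam (co s) * al r
  narn : ∀ s, (W : ℝ) ≤ lam (co s) * an - gam (co s) * be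
  tgt : c₀ ≤ gam n * be - lam n * an
  tgt' : gam n * be - lam n * an ≤ c

/-- A positive lower bound of the positive values. -/
theorem exists_pos_lb {ι : Type*} (t : Finset ι) (f : ι → ℝ) :
    ∃ c : ℝ, 0 < c ∧ ∀ i ∈ t, 0 < f i → c ≤ f i := by
  classical
  induction t using Finset.induction_on with
  | empty => exact ⟨1, one_pos, fun i hi => absurd hi (Finset.notMem_empty i)⟩
  | insert a t _ ih =>
    obtain ⟨c, hc, h⟩ := ih
    by_cases ha : 0 < f a
    · refine ⟨min c (f a), lt_min hc ha, fun i hi hi2 => ?_⟩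
      rcases Finset.mem_insert.1 hi with rfl | hi
      · exact min_le_right _ _
      · exact (min_le_left _ _).trans (h i hi hi2)
    · refine ⟨c, hc, fun i hi hi2 => ?_⟩
      rcases Finset.mem_insert.1 hi with rfl | hi
      · exact absurd hi2 ha
      · exact h i hi hi2

/-- **The numbers exist**: `c` does not depend on `W`. -/
theorem exists_pln (n : ℕ) (lam gam : ℕ → ℝ) (hlam : ∀ l, 0 < lam l) (hgam : ∀ l, 0 ≤ gam l)
    (hgn : 0 < gam n) (hA : CondA n lam gam) (c₀ : ℝ) (hc₀ : 0 ≤ c₀) :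
    ∃ c : ℝ, ∀ W : ℕ, ∃ (be : ℕ) (co al : Fin (n - 1) → ℕ) (an : ℕ),
      PlN n lam gam c₀ c W be co al an := by
  classical
  obtain ⟨lm, hlm, hlm1⟩ := exists_pos_lb (range (n + 1)) lam
  have hlm2 : ∀ l ≤ n, lm ≤ lam l := fun l hl => hlm1 l (by simp; omega) (hlam l)
  obtain ⟨LM, hLM⟩ : ∃ LM : ℝ, LM = ∑ l ∈ range (n + 1), lam l := ⟨_, rfl⟩
  have hLM2 : ∀ l ≤ n, lam l ≤ LM := fun l hl => by
    rw [hLM]
    exact Finset.single_le_sum (f := lam) (fun i _ => (hlam i).le) (by simp; omega)
  -- the ratios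
  obtain ⟨ρ, hρ⟩ : ∃ ρ : Fin (n - 1) → ℝ, ρ = fun r : Fin (n - 1) =>
      gam ((r : ℕ) + 1) / lam ((r : ℕ) + 1) :=
    ⟨_, rfl⟩
  obtain ⟨σ, hσ⟩ : ∃ σ : Equiv.Perm (Fin (n - 1)), σ = Tuple.sort ρ := ⟨_, rfl⟩
  obtain ⟨R, hR⟩ : ∃ R : Fin (n - 1) → ℝ, R = fun r => ρ (σ r) := ⟨_, rfl⟩
  have hRm : Monotone R := by
    rw [hR, hσ]
    exact Tuple.monotone_sort ρ
  obtain ⟨co, hco⟩ : ∃ co : Fin (n - 1) → ℕ, co = fun r : Fin (n - 1) => (σ r : ℕ) + 1 := ⟨_, rfl⟩
  have hco1 : ∀ r, 1 ≤ co r := fun r => by rw [hco]; simp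
  have hco2 : ∀ r, co r < n := fun r => by
    have := (σ r).2
    rw [hco]
    simp only
    omega
  have hcoi : Function.Injective co := by
    intro r s h
    rw [hco] at h
    simp only [Nat.add_right_cancel_iff] at h
    exact σ.injective (Fin.ext h)
  have hRg : ∀ r, gam (co r) = lam (co r) * R r := by
    intro r
    rw [hR, hco, hρ]
    simp only
    rw [mul_div_cancel₀]
    exact (hlam _).ne'
  have hR0 : ∀ r, 0 ≤ R r := fun r => by
    rw [hR, hρ]
    exact div_nonneg (hgam _) (hlam _).le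
  obtain ⟨ρn, hρn⟩ : ∃ ρn : ℝ, ρn = gam n / lam n := ⟨_, rfl⟩
  have hρg : gam n = lam n * ρn := by
    rw [hρn, mul_div_cancel₀]
    exact (hlam _).ne'
  have hRn : ∀ r, R r < ρn := by
    intro r
    have h1 := hA (co r) (hco1 r) (hco2 r)
    rw [hRg, hρg] at h1
    have h2 : (lam (co r) * lam n) * R r < (lam (co r) * lam n) * ρn := by nlinarith
    exact lt_of_mul_lt_mul_left h2 (mul_nonneg (hlam _).le (hlam _).le)
  have hρn0 : 0 < ρn := by rw [hρn]; exact div_pos hgn (hlam n)
  -- the gap of the ratios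
  obtain ⟨δ₁, hδ₁, h1⟩ := exists_pos_lb (univ : Finset (Fin (n - 1) × Fin (n - 1)))
    (fun x => R x.2 - R x.1)
  obtain ⟨δ₂, hδ₂, h2⟩ := exists_pos_lb (univ : Finset (Fin (n - 1))) (fun x => ρn - R x)
  obtain ⟨δ, hδ⟩ : ∃ δ : ℝ, δ = min (min δ₁ δ₂) ρn := ⟨_, rfl⟩
  have hδ0 : 0 < δ := by
    rw [hδ]
    exact lt_min (lt_min hδ₁ hδ₂) hρn0
  have hd1 : ∀ r s, R r < R s → δ ≤ R s - R r := fun r s h => by
    have := h1 (r, s) (Finset.mem_univ _) (by simpa using h)
    rw [hδ]
    exact ((min_le_left _ _).trans (min_le_left _ _)).trans this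
  have hd2 : ∀ r, δ ≤ ρn - R r := fun r => by
    have := h2 r (Finset.mem_univ _) (by have := hRn r; linarith)
    rw [hδ]
    exact ((min_le_left _ _).trans (min_le_right _ _)).trans this
  have hd3 : δ ≤ ρn := by rw [hδ]; exact min_le_right _ _
  obtain ⟨cl, hcl⟩ : ∃ cl : ℝ, cl = c₀ / lm := ⟨_, rfl⟩
  have hcl0 : 0 ≤ cl := by rw [hcl]; positivity
  have hclc : lm * cl = c₀ := by
    rw [hcl, mul_div_cancel₀]
    exact hlm.ne'
  have hcn : c₀ / lam n ≤ cl := by
    rw [hcl]
    exact div_le_div_of_nonneg_left hc₀ hlm (hlm2 n le_rfl)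
  have hcn0 : 0 ≤ c₀ / lam n := div_nonneg hc₀ (hlam n).le
  have hcn1 : lam n * (c₀ / lam n) = c₀ := by
    rw [mul_div_cancel₀]
    exact (hlam n).ne'
  refine ⟨LM * (cl + 1) + c₀, fun W => ?_⟩
  have hW0 : (0 : ℝ) ≤ W := Nat.cast_nonneg W
  obtain ⟨x, hx⟩ := exists_nat_ge ((W / lm + W + 2 * cl + 2) / δ)
  obtain ⟨be, hbe⟩ : ∃ be : ℕ, be = max W x := ⟨_, rfl⟩
  have hb1 : W ≤ be := by rw [hbe]; exact le_max_left _ _
  have hb2 : W / lm + W + 2 * cl + 2 ≤ δ * be := by
    have h3 : (W / lm + W + 2 * cl + 2) / δ ≤ be := by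
      refine hx.trans ?_
      exact_mod_cast (by rw [hbe]; exact le_max_right _ _ : x ≤ be)
    rw [div_le_iff₀ hδ0] at h3
    linarith
  have hb0 : (0 : ℝ) ≤ be := Nat.cast_nonneg be
  have hWl : 0 ≤ W / lm := by positivity
  have hWl2 : lm * (W / lm) = W := by
    rw [mul_div_cancel₀]
    exact hlm.ne'
  -- the steps
  obtain ⟨al, hal⟩ : ∃ al : Fin (n - 1) → ℕ, al = fun r : Fin (n - 1) => ⌈R r * be + cl⌉₊ := ⟨_, rfl⟩
  have al1 : ∀ r, R r * be + cl ≤ al r := fun r => by rw [hal]; exact Nat.le_ceil _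
  have al2 : ∀ r, (al r : ℝ) ≤ R r * be + cl + 1 := fun r => by
    rw [hal]
    exact (Nat.ceil_lt_add_one (add_nonneg (mul_nonneg (hR0 r) hb0) hcl0)).le
  have alm : ∀ r s, R r ≤ R s → al r ≤ al s := fun r s h => by
    rw [hal]
    exact Nat.ceil_mono (by
      have := mul_le_mul_of_nonneg_right h hb0
      linarith)
  obtain ⟨an, han⟩ : ∃ an : ℕ, an = ⌊ρn * be - c₀ / lam n⌋₊ := ⟨_, rfl⟩
  have hnn : 0 ≤ ρn * be - c₀ / lam n := by
    have := mul_le_mul_of_nonneg_right hd3 hb0
    linarith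
  have an1 : (an : ℝ) ≤ ρn * be - c₀ / lam n := by rw [han]; exact Nat.floor_le hnn
  have an2 : ρn * be - c₀ / lam n - 1 ≤ an := by
    rw [han]
    exact (Nat.sub_one_lt_floor _).le
  have hgap : ∀ r s, R r < R s → al r + W ≤ al s := by
    intro r s h
    have h3 := hd1 r s h
    have h4 := mul_le_mul_of_nonneg_right h3 hb0
    have h5 := al2 r
    have h6 := al1 s
    have h7 : ((al r + W : ℕ) : ℝ) ≤ al s := by
      push_cast
      linarith
    exact_mod_cast h7
  have hlt : ∀ r s, al r < al s → R r < R s := by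
    intro r s h
    by_contra hc
    have := alm s r (not_lt.1 hc)
    omega
  have hW1 : ∀ r s, al r = al s → R r = R s ∨ W = 0 := by
    intro r s h
    by_contra hc
    push Not at hc
    rcases lt_or_gt_of_ne hc.1 with h3 | h3
    · have := hgap r s h3
      omega
    · have := hgap s r h3
      omega
  have heq : ∀ r s, al r = al s → R r = R s := by
    intro r s h
    by_contra hc
    rcases lt_or_gt_of_ne hc with h3 | h3
    · have h4 := mul_le_mul_of_nonneg_right (hd1 r s h3) hb0
      have h5 := al2 r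
      have h6 := al1 s
      rw [h] at h5
      linarith
    · have h4 := mul_le_mul_of_nonneg_right (hd1 s r h3) hb0
      have h5 := al2 s
      have h6 := al1 r
      rw [h] at h6
      linarith
  refine ⟨be, co, al, an, ?_⟩
  have l1 : ∀ s, lm ≤ lam (co s) := fun s => hlm2 _ (hco2 s).le
  have l2 : ∀ s, lam (co s) ≤ LM := fun s => hLM2 _ (hco2 s).le
  exact
  { co_ge := hco1
    co_lt := hco2
    inj := hcoi
    W_be := hb1
    mono := fun r s h => alm r s (hRm h)
    gap := fun r s h => hgap r s (hlt r s h)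
    gapn := fun r => by
      have h3 := mul_le_mul_of_nonneg_right (hd2 r) hb0
      have h5 := al2 r
      have h7 : ((al r + W : ℕ) : ℝ) ≤ an := by
        push_cast
        linarith
      exact_mod_cast h7
    own := fun r s h => by
      have h3 := heq r s h
      have h4 := al1 r
      have h5 := al2 r
      rw [hRg s, ← h3]
      have h6 : lam (co s) * al r - lam (co s) * R r * be = lam (co s) * (al r - R r * be) := by
        ring
      rw [h6]
      constructor
      · calc c₀ = lm * cl := hclc.symm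
          _ ≤ lam (co s) * (al r - R r * be) :=
            mul_le_mul (l1 s) (by linarith) hcl0 (hlam _).le
      · have h7 : lam (co s) * (al r - R r * be) ≤ LM * (cl + 1) :=
          mul_le_mul (l2 s) (by linarith) (by linarith) ((hlam _).le.trans (l2 s))
        linarith
    nar := fun r s h => by
      have h3 := hd1 s r (hlt s r h)
      have h4 := mul_le_mul_of_nonneg_right h3 hb0
      have h5 := al1 r
      rw [hRg s]
      have h6 : lam (co s) * al r - lam (co s) * R s * be = lam (co s) * (al r - R s * be) := by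
        ring
      rw [h6, ← hWl2]
      exact mul_le_mul (l1 s) (by linarith) hWl (hlam _).le
    wid := fun r s h => by
      have h3 := hd1 r s (hlt r s h)
      have h4 := mul_le_mul_of_nonneg_right h3 hb0
      have h5 := al2 r
      rw [hRg s]
      have h6 : lam (co s) * R s * be - lam (co s) * al r = lam (co s) * (R s * be - al r) := by
        ring
      rw [h6, ← hWl2]
      exact mul_le_mul (l1 s) (by linarith) hWl (hlam _).le
    narn := fun s => by
      have h4 := mul_le_mul_of_nonneg_right (hd2 s) hb0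
      rw [hRg s]
      have h6 : lam (co s) * an - lam (co s) * R s * be = lam (co s) * (an - R s * be) := by
        ring
      rw [h6, ← hWl2]
      exact mul_le_mul (l1 s) (by linarith) hWl (hlam _).le
    tgt := by
      rw [hρg]
      have h6 : lam n * ρn * be - lam n * an = lam n * (ρn * be - an) := by ring
      rw [h6, ← hcn1]
      refine mul_le_mul_of_nonneg_left ?_ (hlam n).le
      linarith
    tgt' := by
      rw [hρg]
      have h6 : lam n * ρn * be - lam n * an = lam n * (ρn * be - an) := by ring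
      have h7 : lam n * (ρn * be - an) ≤ lam n * (c₀ / lam n + 1) :=
        mul_le_mul_of_nonneg_left (by linarith) (hlam n).le
      have h8 : lam n ≤ LM := hLM2 n le_rfl
      have h9 : LM * 1 ≤ LM * (cl + 1) :=
        mul_le_mul_of_nonneg_left (by linarith) ((hlam n).le.trans h8)
      rw [h6]
      nlinarith }

end Pool.LSH
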