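import Pool.Agent.H46.LSH.Cell
import Pool.Agent.H88.LSH.OutT
import Pool.Agent.H48.GEN.L1Sh
import Pool.Agent.H55.LSH.Da

/-!
# The local theorem at a pair, all weights
-/

set_option autoImplicit false

namespace Pool.LSH

open Finset MvPolynomial
open Pool.Agent.H49.Ent Pool.Agent.H32.Dense Pool.STK Pool.STAT Pool.MIC Pool.MicA Pool.LBL
open Pool.BFL (Pl Pb)
open Pool.KAF (Pr)
open Pool.STAT.Glu (EvK)
open scoped Polynomial

/-- **The local theorem at a pair**, from the entropic hypotheses of the sheets. -/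
theorem mic_out_of (hDA : DAStmt) : MicOutS CondA := by
  classical
  intro n K B V lam gam C₁ h c hn hB hlam hgam hgn hC₁ hh hh1 hQ
  by_cases hl1 : ∀ l, 1 ≤ lam l
  swap
  · -- no cell at all
    refine ⟨0, 1, 0, 1, by omega, one_pos, fun m₀ => ⟨m₀, m₀, 0, 0, 0, le_rfl, by omega, ?_⟩⟩
    intro W be co al an _ _ S' _
    refine ⟨0, fun M _ => ⟨1, 1, 0, one_pos, one_pos, ?_⟩⟩
    intro J a₀ w₀ z i j D q _ _ _ _ _ hO _ _ _
    exact absurd hO.lam_ge hl1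
  have hl2 : 0 < Real.log 2 := Real.log_pos (by norm_num)
  obtain ⟨K₀, hK₀⟩ : ∃ K₀, K₀ = K * (K + 1) ^ n := ⟨_, rfl⟩
  rw [← hK₀]
  -- the sheets
  obtain ⟨N, hSha⟩ := sha_ok n K K₀ lam gam C₁ hn hC₁ hl1 hgam hK₀.ge
  obtain ⟨cN, hcN⟩ := exists_nat_ge (c + 2 * C₁)
  obtain ⟨CS, hCS, hSha1⟩ := hSha cN
  obtain ⟨Dt, hDt⟩ : ∃ Dt, Dt = N + (n - 1) * (K₀ * N * N) := ⟨_, rfl⟩
  -- the path
  obtain ⟨E', hPath⟩ := path2_thm n K lam gam C₁ hn hC₁
  -- the middle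
  obtain ⟨A₂, a, A₁, K₂, c₁, Cm, hVa, hc₁, hCm, hMid⟩ := mid_thm (n - 1) (Dt + 1) K₀ E' V 1
    (h / 32) (fun _ => 1 / 2) le_rfl (fun _ => by rw [abs_of_pos] <;> norm_num)
    (by positivity) (by linarith)
  refine ⟨A₂, a, K₂, c₁, hVa, hc₁, fun m₀ => ?_⟩
  -- the bits of the own shape
  obtain ⟨ck, Ck, hCk, hKpc⟩ := kpa_coarse n K K₀ hn hK₀.ge
  obtain ⟨bbn, θn, F₀, hbbn, hF₀, hFew⟩ := few_A n K K₀ B ck lam gam C₁ h hn hB hgn hC₁ hh hh1 hK₀.ge
  obtain ⟨m₁, hm₁⟩ := exists_nat_ge (Cm * (θn + 1 + 2 * (F₀ + Ck) + 1))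
  obtain ⟨m₂, hm₂⟩ : ∃ m₂, m₂ = m₀ + m₁ + bbn + 2 := ⟨_, rfl⟩
  -- the values
  obtain ⟨κ₂, hκ₂, hVal⟩ := val_cl l1sh (n - 1) N N K₀ Dt (h / 2) (1 / 2) c₁ (by rw [hDt])
    (by positivity) (by norm_num) hc₁
  obtain ⟨A, hA⟩ : ∃ A : ℕ, A = A₁ + a + 1 := ⟨_, rfl⟩
  have hA0 : (0 : ℝ) < A := by rw [hA]; positivity
  obtain ⟨ρ, hρ⟩ : ∃ ρ : ℝ, ρ = min κ₂ 1 / A := ⟨_, rfl⟩
  have hρ0 : 0 < ρ := by
    rw [hρ]
    exact div_pos (lt_min hκ₂ one_pos) hA0
  obtain ⟨κ₀, π₀, ι, X₀, hκ₀, hκ₀1, hπ₀, hι, hVal1⟩ := hVal (ρ / 2) (by positivity)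
  -- the steps
  obtain ⟨U₁, hDA1⟩ := hDA n K K₀ B N bbn lam gam C₁ h c (h / 16) (F₀ + Ck) ι κ₀ π₀ hn hB hbbn
    hlam hgam hgn hC₁ hh hh1 hQ hK₀.ge (by positivity) (by linarith) (by positivity) hι hκ₀ hκ₀1 hπ₀
  obtain ⟨U₂, hU₂⟩ := exists_nat_ge ((CS + bbn) / ι)
  obtain ⟨U₃, hU₃⟩ := exists_nat_ge (2 * (m₂ + 1) / ρ)
  obtain ⟨U, hU⟩ : ∃ U, U = U₁ + U₂ + U₃ + 1 := ⟨_, rfl⟩
  obtain ⟨m, hm⟩ : ∃ m, m = ⌊ρ * (U : ℝ)⌋₊ := ⟨_, rfl⟩
  have hρU : 2 * ((m₂ : ℝ) + 1) ≤ ρ * U := by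
    have h1 : 2 * ((m₂ : ℝ) + 1) / ρ ≤ U := hU₃.trans (by exact_mod_cast (by omega : U₃ ≤ U))
    rw [div_le_iff₀ hρ0] at h1
    linarith
  have hmle : (m : ℝ) ≤ ρ * U := by
    rw [hm]
    exact Nat.floor_le (by positivity)
  have hmge : ρ / 2 * U ≤ m := by
    have h1 : ρ * U < m + 1 := by
      rw [hm]
      exact Nat.lt_floor_add_one _
    have h2 : (0 : ℝ) ≤ m₂ := Nat.cast_nonneg _
    linarith
  have hm₂m : m₂ ≤ m := by
    have h1 : (m₂ : ℝ) ≤ m := by linarith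
    exact_mod_cast h1
  have hAm : (A : ℝ) * m ≤ min κ₂ 1 * U := by
    calc (A : ℝ) * m ≤ A * (ρ * U) := mul_le_mul_of_nonneg_left hmle hA0.le
      _ = min κ₂ 1 * U := by
        rw [hρ]
        field_simp
  have hUR : (0 : ℝ) ≤ U := Nat.cast_nonneg _
  have hAmU : A * m ≤ U := by
    have h1 : (A : ℝ) * m ≤ U := hAm.trans (by
      calc min κ₂ 1 * (U : ℝ) ≤ 1 * U := mul_le_mul_of_nonneg_right (min_le_right _ _) hUR
        _ = U := one_mul _)
    exact_mod_cast h1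
  have hAmκ : (A : ℝ) * m ≤ κ₂ * U :=
    hAm.trans (mul_le_mul_of_nonneg_right (min_le_left _ _) hUR)
  obtain ⟨e, W₁, S₁, he, hDA2⟩ := hDA1 U (by omega)
  obtain ⟨U₀, hUU₀, hFew1⟩ := hFew U (by omega)
  obtain ⟨W₂, hW₂⟩ := exists_wok n lam hlam C₁ cN U
  obtain ⟨κf, zf, hκf, hFew2⟩ := hFew1 e he
  obtain ⟨W₃, hW₃⟩ := exists_nat_ge ((c + lam n) / gam n)
  refine ⟨m, U, bbn, W₁ + W₂ + W₃, S₁ + U₀ + 1, by omega, ?_, ?_⟩
  · refine le_trans ?_ hAmU
    exact Nat.mul_le_mul_right _ (by omega)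
  intro W be co al an hW hP S' hS'
  obtain ⟨RD, hDA3⟩ := hDA2 W be co al an (by omega) hP S' (by omega)
  obtain ⟨yg, hyg⟩ := exists_nat_ge ((U₀ : ℝ) / gam n)
  refine ⟨RD + S' * an + S' * be + an + be + B * U₀ + U₀ + yg + (V + 2) * m + 2, ?_⟩
  intro M hM
  obtain ⟨κD, ϖD, zD, hκD, hϖD, hDA4⟩ := hDA3 M (by omega)
  obtain ⟨κS, zS, hκS, hSha2⟩ := hSha1 M (h / 32) (by omega) (by positivity)
  obtain ⟨κP, zP, hκP, hPath1⟩ := hPath c₁ hc₁
  refine ⟨min (min κD κS) (min κP (min κf 1)), min ϖD 1,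
    max (max zD zS) (max (max zP zf) (X₀ + 1)), ?_, ?_, ?_⟩
  · exact lt_min (lt_min hκD hκS) (lt_min hκP (lt_min hκf one_pos))
  · exact lt_min hϖD one_pos
  intro J a₀ w₀ z i j D q hz hRi hiR hRj hjR hO hL hNF hT
  obtain ⟨κ, hκ⟩ : ∃ κ, κ = min (min κD κS) (min κP (min κf 1)) := ⟨_, rfl⟩
  rw [← hκ] at hO hL hT
  have hκ_D : κ ≤ κD := by rw [hκ]; exact (min_le_left _ _).trans (min_le_left _ _)
  have hκ_S : κ ≤ κS := by rw [hκ]; exact (min_le_left _ _).trans (min_le_right _ _)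
  have hκ_P : κ ≤ κP := by rw [hκ]; exact (min_le_right _ _).trans (min_le_left _ _)
  have hκ_f : κ ≤ κf := by
    rw [hκ]
    exact (min_le_right _ _).trans ((min_le_right _ _).trans (min_le_left _ _))
  have hκ_1 : κ ≤ 1 := by
    rw [hκ]
    exact (min_le_right _ _).trans ((min_le_right _ _).trans (min_le_right _ _))
  have hzD : zD ≤ z := ((le_max_left _ _).trans (le_max_left _ _)).trans hz
  have hzS : zS ≤ z := ((le_max_right _ _).trans (le_max_left _ _)).trans hz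
  have hzP : zP ≤ z := (((le_max_left _ _).trans (le_max_left _ _)).trans (le_max_right _ _)).trans hz
  have hzf : zf ≤ z := (((le_max_right _ _).trans (le_max_left _ _)).trans (le_max_right _ _)).trans hz
  have hzX : X₀ + 1 ≤ z := ((le_max_right _ _).trans (le_max_right _ _)).trans hz
  have hz1 : 1 ≤ z := by omega
  have hz0 : (0 : ℝ) ≤ z := Nat.cast_nonneg z
  have hzR : (1 : ℝ) ≤ z := by exact_mod_cast hz1
  have hT' : ∀ κ' : ℝ, κ ≤ κ' → D.TmU J w₀ z κ' q := by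
    intro κ' hκ'
    unfold NDat2.TmU at hT ⊢
    have : κ * (z : ℝ) ≤ κ' * z := mul_le_mul_of_nonneg_right hκ' hz0
    linarith
  have hq := hO.isLaw
  -- the places
  have hWok : WOk n lam C₁ cN U W := hW₂.mono hlam (by omega)
  have hW1 : 1 ≤ W := by
    have := hWok.win
    omega
  have hbe1 : 1 ≤ be := hW1.trans hP.W_be
  have han1 : 1 ≤ an := by
    have h1 := hP.tgt'
    have h2 : (W₃ : ℝ) ≤ be := by
      exact_mod_cast (by have := hP.W_be; omega : W₃ ≤ be)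
    have h3 : c + lam n ≤ gam n * be := by
      have h4 := hW₃.trans h2
      rw [div_le_iff₀ hgn] at h4
      linarith
    have h5 : lam n * 1 ≤ lam n * an := by linarith
    have h6 : (1 : ℝ) ≤ an := le_of_mul_le_mul_left h5 (hlam n)
    exact_mod_cast h6
  have hS1 : 1 ≤ S' := by omega
  have hSan : S' ≤ S' * an := Nat.le_mul_of_pos_right _ han1
  have hSbe : S' ≤ S' * be := Nat.le_mul_of_pos_right _ hbe1
  have hBU : U ≤ B * U₀ := (by omega : U ≤ U₀).trans (Nat.le_mul_of_pos_left _ (by omega))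
  have hBU' : B * U ≤ B * U₀ := Nat.mul_le_mul_left _ (by omega)
  have hUB : U ≤ B * U := Nat.le_mul_of_pos_left _ (by omega)
  have hUB₀ : U₀ ≤ B * U₀ := Nat.le_mul_of_pos_left _ (by omega)
  have hPlc : Plc D n z (U * z) cN M (plc i j be co al) :=
    plc_of hO (by linarith) hlam hP hWok hcN (by omega) (by omega) (by omega)
  have hPln : Pln D n z (U * z) cN M (plc i j be co al) (i + an, j - be) :=
    pln_of hO hn (by linarith) hP hWok hcN (by omega) (by omega) (by omega)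
  have hFat : Fat D n i j (i - S' * an) (j + S' * be) :=
    own_fat hO hP hWok hS1 (by omega) (by omega) (by omega)
  have hS'R : (U₀ : ℝ) + 1 ≤ S' := by exact_mod_cast (by omega : U₀ + 1 ≤ S')
  have hU₀R : (0 : ℝ) ≤ U₀ := Nat.cast_nonneg _
  have hdeep : D.g i j n + U₀ * z ≤ D.g (i - S' * an) (j + S' * be) n :=
    own_deep hO hn hP (by omega) (by omega) (by omega) (by omega) (by omega) (by nlinarith)
  have hllp : ∀ U' : ℕ, U' ≤ U₀ → B * U' ≤ M → ∀ κ' : ℝ, κ ≤ κ' →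
      D.LLP n z i j (i - S' * an) (j + S' * be) 0 U' (B * U') κ' q := by
    intro U' hU' hBM κ' hκ'
    refine NDat2.LLP.mono ?_ hκ'
    have hU'R : (U' : ℝ) ≤ U₀ := by exact_mod_cast hU'
    refine hL.1.llp (d₁ := S' * an) (d₂ := S' * be) (by omega) (by omega) rfl (by omega)
      (by omega) (Nat.le_mul_of_pos_left _ (by omega)) hBM (fun l => (hlam l).le) ?_ ?_
    · intro l l1 l2
      obtain ⟨s, hs, -⟩ := of_rk (rk_all (π := plc i j be co al) hP.inj hP.co_ge hP.co_lt l1 l2)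
      have h2 := hP.narn s
      have hs' : co s = l := hs
      rw [hs'] at h2
      have h3 : (1 : ℝ) ≤ W := by exact_mod_cast hW1
      have h4 : (0 : ℝ) < S' := by linarith
      have h5 : 0 < (lam l * an - gam l * be) * S' := mul_pos (by linarith) h4
      push_cast
      nlinarith
    · have h2 := hP.tgt
      have h4 : (0 : ℝ) < S' := by linarith
      have h5 := mul_le_mul_of_nonneg_left h2 h4.le
      push_cast
      nlinarith
  obtain ⟨i', hi'⟩ : ∃ i', i' = i - S' * an := ⟨_, rfl⟩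
  obtain ⟨j', hj'⟩ : ∃ j', j' = j + S' * be := ⟨_, rfl⟩
  rw [← hi', ← hj'] at hFat hdeep hllp ⊢
  -- the own shape has few bits
  obtain ⟨hfull, hPG, E, hE16, hEG, hEfew⟩ := hFew2 J a₀ w₀ z M i j i' j' D q hzf (by omega)
    (by
      have h1 : (yg : ℝ) ≤ (M : ℝ) - j := by
        have : ((yg + j : ℕ) : ℝ) ≤ M := by exact_mod_cast (by omega : yg + j ≤ M)
        push_cast at this
        linarith
      have h2 := hyg.trans h1
      rw [div_le_iff₀ hgn] at h2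
      linarith)
    ⟨by omega, by omega, by omega, by omega⟩ ⟨by omega, by omega, by omega, by omega⟩
    (by omega) (by omega) hFat hdeep (hO.mono_κ hκ_f)
    (hNF.mono le_rfl le_rfl (min_le_right _ _)) (hllp U₀ le_rfl (by omega) κf hκ_f)
    (hllp U (by omega) (by omega) κf hκ_f)
  have hE0 : 0 < Pb q E := lt_of_lt_of_le (by positivity) hE16
  have hUz : 1 ≤ U * z := Nat.mul_pos (by omega) hz1
  have hck : U * z + ck ≤ U₀ * z := by
    have h1 : (U + ck) * z ≤ U₀ * z := Nat.mul_le_mul_right _ hUU₀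
    have h2 : ck ≤ ck * z := Nat.le_mul_of_pos_right _ hz1
    have h3 : (U + ck) * z = U * z + ck * z := by ring
    omega
  have hfewE : CH (cond q E True) (kpA D n K₀ z i j i' j' (U * z) (bbn * z))
      (fun ω => (D.c i j ω, thr D J (w₀ + j * z) ω)) ≤ (F₀ + Ck) * z := by
    have h1 := hKpc J a₀ w₀ z M i j i' j' (U * z) (U₀ * z) (U * z + ck) (bbn * z) (bbn * z) lam gam
      κ C₁ D q hO hFat hdeep hUz le_rfl hck E hE0 (fun ω _ h => hEG ω h)
      (fun ω => (D.c i j ω, thr D J (w₀ + j * z) ω))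
    have h2 : Ck ≤ Ck * z := by nlinarith
    linarith
  -- the sheets
  obtain ⟨ω₀⟩ : Nonempty D.Ω := by
    by_contra hne
    rw [not_nonempty_iff] at hne
    have := hq.sum_one
    rw [Finset.univ_eq_empty, Finset.sum_empty] at this
    exact zero_ne_one this
  have hzUz : z ≤ U * z := Nat.le_mul_of_pos_left _ (by omega)
  obtain ⟨G, hG, hOK⟩ := hSha2 J a₀ w₀ z (U * z) (bbn * z) D q (plc i j be co al) (i', j')
    (i + an, j - be) ω₀ hzS hzUz hPlc hPln (hO.mono_κ hκ_S) (hT' κS hκ_S)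
  obtain ⟨h1', h2', h3', h5'⟩ := hDA4 J a₀ w₀ z i j D q ω₀ E hzD (by omega) (by omega) (by omega)
    (by omega) (hO.mono_κ hκ_D) (hL.mono hκ_D) (hNF.mono le_rfl le_rfl (min_le_left _ _))
    (hT' κD hκ_D) hE16 (by rw [← hi', ← hj']; exact hPG) (by rw [← hi', ← hj']; exact hfewE)
  rw [← hi', ← hj'] at h1' h2' h3' h5'
  have hEGp : Pb q E ≤ Pb q (fun ω => E ω ∧ ω ∈ G) + h / 32 := by
    refine le_trans (Pb_mono_ae hq.nonneg (B := fun ω => (E ω ∧ ω ∈ G) ∨ ω ∉ G)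
      fun ω _ hω => ?_) ((Pb_or2 hq.nonneg _ _).trans (add_le_add le_rfl hG))
    by_cases hc : ω ∈ G
    · exact Or.inl ⟨hω, hc⟩
    · exact Or.inr hc
  have hEG32 : h / 32 ≤ Pb q (fun ω => E ω ∧ ω ∈ G) := by linarith
  have hEG0 : 0 < Pb q (fun ω => E ω ∧ ω ∈ G) := lt_of_lt_of_le (by positivity) hEG32
  -- the values are polynomials
  have hOKm : (CS * z + ((bbn * z : ℕ) : ℝ)) ≤ ι * ((U * z : ℕ) : ℝ) := by
    have h6 : (CS + bbn) / ι ≤ U := hU₂.trans (by exact_mod_cast (by omega : U₂ ≤ U))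
    rw [div_le_iff₀ hι] at h6
    push_cast
    nlinarith
  obtain ⟨u, g, hu, hgd, hgv⟩ := hVal1
    ((shA D (plc i j be co al) q J (w₀ + j * z) ω₀ n (U * z) N K₀ z (bbn * z) (i', j')
      (i + an, j - be)).wp (cond q E True)) G
    (SDat.wp_ok (hOK.mono hOKm) (isLaw_ev hq E hE0) fun ω hω => (ev_pos hq.nonneg E hω).1)
    (show X₀ ≤ U * z by omega)
    (by
      rw [Pr_Pb]
      have h6 := Pb_cond_ge (p := q) E (fun ω => ω ∈ G) hE0
      have h7 : Pb q E / 2 ≤ Pb (cond q E True) (fun ω => ω ∈ G) * Pb q E := by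
        rw [h6]
        linarith
      have h8 : 1 / 2 * Pb q E ≤ Pb (cond q E True) (fun ω => ω ∈ G) * Pb q E := by linarith
      exact le_of_mul_le_mul_right h8 hE0)
    h1' h2' h3' h5'
  -- the middle
  obtain ⟨β, hβ1, hβ2⟩ := hPath1 J a₀ w₀ z M i j D q hzP (by omega) (by omega) (hO.mono_κ hκ_P)
    (hT' κP hκ_P)
  have hAA : A₁ * (m * z) ≤ U * z := by
    rw [← mul_assoc]
    exact Nat.mul_le_mul_right _ ((Nat.mul_le_mul_right _ (by omega)).trans hAmU)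
  have hsκ : ((A₁ * (m * z) : ℕ) : ℝ) ≤ κ₂ * ((U * z : ℕ) : ℝ) := by
    have h6 : ((A₁ * m : ℕ) : ℝ) ≤ ((A * m : ℕ) : ℝ) := by
      exact_mod_cast Nat.mul_le_mul_right m (by omega : A₁ ≤ A)
    push_cast at h6 ⊢
    have h7 := mul_le_mul_of_nonneg_right (h6.trans hAmκ) hz0
    linarith
  have hvals := vals_cell (N := N) (a := (i + an, j - be)) hO hPlc ω₀ hE0 G g hsκ hc₁.le hgv
    hβ1
  have huz : u ≤ m * z := by
    have h6 : (u : ℝ) ≤ ρ / 2 * ((U * z : ℕ) : ℝ) := hu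
    have h7 := mul_le_mul_of_nonneg_right hmge hz0
    have h8 : (u : ℝ) ≤ ((m * z : ℕ) : ℝ) := by
      push_cast at h6 ⊢
      linarith
    exact_mod_cast h8
  obtain ⟨w, hw⟩ : ∃ w, w = w₀ + j * z := ⟨_, rfl⟩
  have hjM : j * z ≤ (M + 1) * z := Nat.mul_le_mul_right _ (by omega)
  have hVm : (V + 2) * (m * z) ≤ (M + 1) * z := by
    rw [← mul_assoc]
    exact Nat.mul_le_mul_right _ (by omega)
  have hwJ : w + (V + 2) * (m * z) ≤ J := by
    have h6 := hO.thin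
    have h7 := hO.top
    rw [hw]
    omega
  have hfewG : CH (cond q (fun ω => E ω ∧ ω ∈ G) True)
      (kpA D n K₀ z i j i' j' (U * z) (bbn * z))
      (fun ω => (D.c i j ω, thr D J (w₀ + j * z) ω)) ≤ 2 * ((F₀ + Ck) * z) := by
    refine (Pool.MIC30.CH_sub_ev hq (E := E) (F := fun ω => E ω ∧ ω ∈ G) (fun ω h => h.1) hEG0
      _ _).trans ?_
    have h6 : Pb q E / Pb q (fun ω => E ω ∧ ω ∈ G) ≤ 2 := by
      rw [div_le_iff₀ hEG0]
      linarith
    have h7 : 0 ≤ (F₀ + Ck) * (z : ℝ) := by positivity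
    have h8 : 0 ≤ Pb q E / Pb q (fun ω => E ω ∧ ω ∈ G) := by positivity
    calc _ ≤ Pb q E / Pb q (fun ω => E ω ∧ ω ∈ G) * ((F₀ + Ck) * z) :=
          mul_le_mul_of_nonneg_left hfewE h8
      _ ≤ _ := mul_le_mul_of_nonneg_right h6 h7
  have hMH := midh_cell (i := i) (j := j) (i' := i') (j' := j') (X := U * z) (K₀ := K₀) (bb := bbn * z)
    (s := A₁ * (m * z)) (m := m * z) (w := w) (nn := Dt + 1) hO (hT' κ le_rfl) hw (by omega)
    (by omega) (by omega) (E := fun ω => E ω ∧ ω ∈ G) (β := β) (θ := (θn + 1) * z)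
    (κ₁ := 2 * ((F₀ + Ck) * z)) (ϖ := h / 32) (c₁ := c₁)
    (by rw [hw]; exact hβ1) (by rw [hw]; exact hβ2)
    (by
      refine mul_le_mul_of_nonneg_right ?_ hz0
      have : (0 : ℝ) ≤ θn := Nat.cast_nonneg _
      linarith)
    (by
      rw [hw]
      refine le_trans ?_ hfull
      have : (θn : ℝ) * z ≤ (θn + 1) * z := mul_le_mul_of_nonneg_right (by linarith) hz0
      linarith)
    hEG32 (by rw [hw]; exact hfewG)
    ⟨u, huz, g, hgd, by rw [hw]; exact hvals⟩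
  obtain ⟨H, hH, hHE⟩ := hMid D.Ω (D.Λ × ℕ) D.Γ q (D.wn J w) (D.c i j) D.T (Y1 D n z i j (U * z))
    (kpA D n K₀ z i j i' j' (U * z) (bbn * z)) (fun ω => E ω ∧ ω ∈ G) β J w (U * z) (m * z)
    (A₁ * (m * z)) (bbn * z) ((θn + 1) * z) (2 * ((F₀ + Ck) * z)) (by positivity) (by positivity)
    (by
      have h6 : Cm * (θn + 1 + 2 * (F₀ + Ck) + 1) ≤ m := by
        refine hm₁.trans ?_
        exact_mod_cast (by omega : m₁ ≤ m)
      have h7 := mul_le_mul_of_nonneg_right h6 hz0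
      push_cast
      refine le_trans ?_ h7
      have h8 : Cm * ((θn + 1) * z + 2 * ((F₀ + Ck) * z) + 1) ≤
          Cm * ((θn + 1 + 2 * (F₀ + Ck) + 1) * z) := by
        refine mul_le_mul_of_nonneg_left ?_ (by linarith)
        nlinarith
      linarith)
    (by
      have h6 : (bbn + 2) * z ≤ m * z := Nat.mul_le_mul_right _ (by omega)
      have h7 : (bbn + 2) * z = bbn * z + 2 * z := by ring
      omega)
    le_rfl hAA hwJ hMH
  refine ⟨H, hH, hHE.trans (Pb_mono_ae hq.nonneg fun ω _ hω => ?_)⟩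
  obtain ⟨⟨hωE, -⟩, hωH⟩ := hω
  refine ⟨(hEG ω hωE).2, ?_⟩
  rw [← hw, mul_assoc, mul_assoc]
  exact hωH

/-- The entropic hypotheses of the sheets. -/
theorem da_stmt : DAStmt := by
  intro n K K₀ B N bbn lam gam C₁ h c p₁ F₀ ι κ₀ π₀ hn hB hbb hlam _ hgn hC₁ hh hh1 _ hK hp₁ _ hF₀
    hι hκ₀ _ hπ₀
  exact da_thm n K K₀ B N bbn lam gam C₁ h c p₁ F₀ ι κ₀ π₀ hn hB hbb hlam hgn hC₁ hh hh1 hK hp₁
    hF₀ hι hκ₀ hπ₀

/-- **The local theorem at a pair**, all weights. -/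
theorem mic_outS : MicOutS CondA := mic_out_of da_stmt

/-- **The local theorem, all weights**: the ratios of the base coordinates are smaller than the
ratio of the target. -/
theorem micOf_condA : MicOf CondA := micOf_of_outS (fun _ _ _ h => h) mic_outS

end Pool.LSH
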